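import Mathlib
import Pool.Agent.R398.AS.Defs

/-! The Rankin-Selberg moments of the symmetric square and the symmetric fourth power. -/

set_option autoImplicit false

namespace Pool.Agent.R398.AI

open NumberField IsDedekindDomain
open Pool.Agent.R398.AS (Nm tr)

/-- What is used of the Rankin-Selberg `L`-functions of `1`, `A² π` and `A⁴ π`, for a unitary cuspidal representation
`π` of `GL_2` over `L` with the Satake parameters `α`; `R` is a finite set of places. The traces are real. -/
structure RankinSelberg {L : Type} [Field L] [NumberField L] (R : Finset (HeightOneSpectrum (𝓞 L)))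
    (α : HeightOneSpectrum (𝓞 L) → Fin 2 → ℂ) : Prop where
  /-- the local components are unitary -/
  unitary : ∀ w : HeightOneSpectrum (𝓞 L), w ∉ R → (∀ i, α w i ≠ 0) ∧
    ∃ τ : Equiv.Perm (Fin 2), ∀ i, α w (τ i) = ((starRingEnd ℂ) (α w i))⁻¹
  /-- the products of the traces of `1`, `A² π`, `A⁴ π` are orthonormal up to `O(1)` -/
  moments : ∀ i j : ℕ, i ≤ 2 → j ≤ 2 → ∃ C : ℝ, ∀ σ : ℝ, 1 < σ →
    (Summable fun w : {w : HeightOneSpectrum (𝓞 L) // w ∉ R} =>
      (tr i (α w.1) 1).re * (tr j (α w.1) 1).re * (Nm w.1 : ℝ) ^ (-σ)) ∧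
    |∑' w : {w : HeightOneSpectrum (𝓞 L) // w ∉ R},
      ((tr i (α w.1) 1).re * (tr j (α w.1) 1).re - if i = j then 1 else 0) * (Nm w.1 : ℝ) ^ (-σ)| ≤ C

end Pool.Agent.R398.AI
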