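import Mathlib
import Pool.Agent.R398.AS.Fam

/-! Places of an extension of number fields and the places below. -/

set_option autoImplicit false
set_option linter.unusedSectionVars false

namespace Pool.Agent.R398.AI

open NumberField IsDedekindDomain Filter Topology
open Pool.Agent.R398.AS

variable {K M : Type} [Field K] [NumberField K] [Field M] [NumberField M] [Algebra K M]

variable (K) in
/-- the place below -/
noncomputable def bel (w : HeightOneSpectrum (𝓞 M)) : HeightOneSpectrum (𝓞 K) := w.under (𝓞 K)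

theorem above_bel (w : HeightOneSpectrum (𝓞 M)) : Above (bel K w) w := rfl

theorem bel_of_above {v : HeightOneSpectrum (𝓞 K)} {w : HeightOneSpectrum (𝓞 M)} (h : Above v w) : bel K w = v :=
  HeightOneSpectrum.ext h

theorem dvd_map (w : HeightOneSpectrum (𝓞 M)) :
    w.asIdeal ∣ (bel K w).asIdeal.map (algebraMap (𝓞 K) (𝓞 M)) := by
  rw [Ideal.dvd_iff_le, Ideal.map_le_iff_le_comap]
  exact le_rfl

theorem fiber_finite (v : HeightOneSpectrum (𝓞 K)) : {w : HeightOneSpectrum (𝓞 M) | bel K w = v}.Finite := by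
  refine (Ideal.finite_factors (R := 𝓞 M) (I := v.asIdeal.map (algebraMap (𝓞 K) (𝓞 M)))
    (Ideal.map_ne_bot_of_ne_bot v.ne_bot)).subset fun w hw => ?_
  have hw' : bel K w = v := hw
  rw [← hw']
  exact dvd_map w

theorem norm_map (v : HeightOneSpectrum (𝓞 K)) :
    Ideal.absNorm (v.asIdeal.map (algebraMap (𝓞 K) (𝓞 M))) = Nm v ^ Module.finrank K M := by
  rw [Ideal.absNorm_algebraMap, ← IsFractionRing.finrank_eq (𝓞 K) K (𝓞 M) M]
  rfl

theorem prod_Nm_le (v : HeightOneSpectrum (𝓞 K)) :
    ∏ w ∈ (fiber_finite (M := M) v).toFinset, Nm w ≤ Nm v ^ Module.finrank K M := by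
  classical
  have hd : ∏ w ∈ (fiber_finite (M := M) v).toFinset, w.asIdeal ∣ v.asIdeal.map (algebraMap (𝓞 K) (𝓞 M)) := by
    have h3 : ∏ w ∈ (fiber_finite (M := M) v).toFinset, w.asIdeal =
        ∏ I ∈ (fiber_finite (M := M) v).toFinset.image fun w => w.asIdeal, I := by
      rw [Finset.prod_image fun a _ b _ hab => HeightOneSpectrum.ext hab]
    rw [h3]
    refine Finset.prod_primes_dvd _ (fun I hI => ?_) fun I hI => ?_
    · obtain ⟨w, -, rfl⟩ := Finset.mem_image.1 hI
      exact w.prime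
    · obtain ⟨w, hw, rfl⟩ := Finset.mem_image.1 hI
      have hw' : bel K w = v := by simpa using hw
      rw [← hw']
      exact dvd_map w
  have h4 := map_dvd (Ideal.absNorm (S := 𝓞 M)) hd
  rw [map_prod, norm_map] at h4
  exact Nat.le_of_dvd (by have := two_le_Nm v; positivity) h4

/-- the degree of `w` over `K` -/
theorem exists_deg (w : HeightOneSpectrum (𝓞 M)) : ∃ f : ℕ, 1 ≤ f ∧ Nm w = Nm (bel K w) ^ f := by
  have hl : w.asIdeal.LiesOver (bel K w).asIdeal := ⟨rfl⟩
  have h1 := Ideal.absNorm_eq_pow_inertiaDeg'_of_liesOver w.asIdeal (bel K w).asIdeal (bel K w).isPrime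
    (bel K w).ne_bot
  have h2 := two_le_Nm w
  refine ⟨_, ?_, h1⟩
  unfold Nm at h2
  rw [h1] at h2
  by_contra h0
  have : (bel K w).asIdeal.inertiaDeg' w.asIdeal = 0 := by omega
  rw [this, pow_zero] at h2
  omega

variable (K) in
/-- the degree of `w` over `K` -/
noncomputable def deg (w : HeightOneSpectrum (𝓞 M)) : ℕ := (exists_deg (K := K) w).choose

theorem one_le_deg (w : HeightOneSpectrum (𝓞 M)) : 1 ≤ deg K w := (exists_deg (K := K) w).choose_spec.1

theorem Nm_eq_pow (w : HeightOneSpectrum (𝓞 M)) : Nm w = Nm (bel K w) ^ deg K w :=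
  (exists_deg (K := K) w).choose_spec.2

theorem deg_eq_of_Nm {w : HeightOneSpectrum (𝓞 M)} {k : ℕ} (h : Nm w = Nm (bel K w) ^ k) : deg K w = k := by
  rw [Nm_eq_pow (K := K)] at h
  exact Nat.pow_right_injective (two_le_Nm _) h

theorem sum_deg_le (v : HeightOneSpectrum (𝓞 K)) :
    ∑ w ∈ (fiber_finite (M := M) v).toFinset, deg K w ≤ Module.finrank K M := by
  have h1 := prod_Nm_le (M := M) v
  have h2 : ∏ w ∈ (fiber_finite (M := M) v).toFinset, Nm w =
      Nm v ^ ∑ w ∈ (fiber_finite (M := M) v).toFinset, deg K w := by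
    rw [← Finset.prod_pow_eq_pow_sum]
    refine Finset.prod_congr rfl fun w hw => ?_
    have hw' : bel K w = v := by simpa using hw
    rw [Nm_eq_pow (K := K) w, hw']
  rw [h2] at h1
  exact (Nat.pow_le_pow_iff_right (by have := two_le_Nm v; omega)).1 h1

theorem card_fiber_le (v : HeightOneSpectrum (𝓞 K)) :
    (fiber_finite (M := M) v).toFinset.card ≤ Module.finrank K M := by
  refine le_trans ?_ (sum_deg_le v)
  rw [Finset.card_eq_sum_ones]
  exact Finset.sum_le_sum fun w _ => one_le_deg w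

/-- sums over the fibres -/
theorem tsum_fib {f : HeightOneSpectrum (𝓞 M) → ℝ} (hf : Summable f) :
    HasSum (fun v => ∑ w ∈ (fiber_finite (K := K) (M := M) v).toFinset, f w) (∑' w, f w) := by
  have h1 := hf.hasSum.tsum_fiberwise (bel K)
  refine h1.congr_fun fun v => ?_
  have h2 : ∑' w : ((bel K) ⁻¹' {v} : Set (HeightOneSpectrum (𝓞 M))), f w.1 =
      ∑ w ∈ (fiber_finite (K := K) (M := M) v).toFinset, f w := by
    rw [← Finset.tsum_subtype]
    refine (Equiv.subtypeEquivRight fun w => ?_).tsum_eq (fun w : {w // w ∈ (fiber_finite (K := K) (M := M) v).toFinset} => f w)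
    simp
  exact h2.symm

theorem summable_bel {x : ℝ} (hx : 1 < x) :
    Summable fun w : HeightOneSpectrum (𝓞 M) => (Nm (bel K w) : ℝ) ^ (-x) := by
  refine summable_of_sum_le (c := Module.finrank K M * ∑' v : HeightOneSpectrum (𝓞 K), (Nm v : ℝ) ^ (-x))
    (fun w => by have := (Nm_pos (bel K w)).le; positivity) fun F => ?_
  classical
  have hs := summable_Nm (K := K) hx
  have hpos : ∀ v : HeightOneSpectrum (𝓞 K), 0 ≤ (Nm v : ℝ) ^ (-x) := fun v => by
    have := (Nm_pos v).le
    positivity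
  calc ∑ w ∈ F, (Nm (bel K w) : ℝ) ^ (-x) =
      ∑ v ∈ F.image (bel K), ∑ w ∈ F with bel K w = v, (Nm (bel K w) : ℝ) ^ (-x) :=
        (Finset.sum_fiberwise_of_maps_to (fun w hw => Finset.mem_image_of_mem _ hw) _).symm
    _ ≤ ∑ v ∈ F.image (bel K), Module.finrank K M * (Nm v : ℝ) ^ (-x) := by
        refine Finset.sum_le_sum fun v _ => ?_
        have h1 : ∑ w ∈ F with bel K w = v, (Nm (bel K w) : ℝ) ^ (-x) =
            ∑ w ∈ F with bel K w = v, (Nm v : ℝ) ^ (-x) :=
          Finset.sum_congr rfl fun w hw => by rw [(Finset.mem_filter.1 hw).2]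
        rw [h1, Finset.sum_const, nsmul_eq_mul]
        refine mul_le_mul_of_nonneg_right ?_ (hpos v)
        have h2 : (F.filter fun w => bel K w = v).card ≤ (fiber_finite (M := M) v).toFinset.card :=
          Finset.card_le_card fun w hw => by simpa using (Finset.mem_filter.1 hw).2
        exact_mod_cast h2.trans (card_fiber_le v)
    _ = Module.finrank K M * ∑ v ∈ F.image (bel K), (Nm v : ℝ) ^ (-x) := (Finset.mul_sum _ _ _).symm
    _ ≤ _ := mul_le_mul_of_nonneg_left (hs.sum_le_tsum _ fun v _ => hpos v) (Nat.cast_nonneg _)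

/-- the places of degree at least two are negligible -/
theorem high_bounded : ∃ C : ℝ, ∀ x : ℝ, 1 < x →
    ∑' w : HeightOneSpectrum (𝓞 M), (if deg K w = 1 then 0 else (Nm w : ℝ) ^ (-x)) ≤ C := by
  have h2 := summable_bel (K := K) (M := M) (x := 2) (by norm_num)
  refine ⟨∑' w : HeightOneSpectrum (𝓞 M), (Nm (bel K w) : ℝ) ^ (-(2 : ℝ)), fun x hx => ?_⟩
  have hs := summable_Nm (K := M) hx
  have h1 : ∀ w : HeightOneSpectrum (𝓞 M), (if deg K w = 1 then 0 else (Nm w : ℝ) ^ (-x)) ≤
      (Nm (bel K w) : ℝ) ^ (-(2 : ℝ)) := by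
    intro w
    have hp := Nm_pos (bel K w)
    have hq := two_le_Nm' (bel K w)
    split_ifs with h
    · positivity
    · have h3 : 2 ≤ deg K w := by
        have := one_le_deg (K := K) w
        omega
      have h4 : ((Nm (bel K w) : ℝ) ^ 2) ≤ Nm w := by
        rw [Nm_eq_pow (K := K) w]
        push_cast
        exact pow_le_pow_right₀ (by linarith) h3
      calc (Nm w : ℝ) ^ (-x) ≤ ((Nm (bel K w) : ℝ) ^ 2) ^ (-x) :=
            Real.rpow_le_rpow_of_nonpos (by positivity) h4 (by linarith)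
        _ = (Nm (bel K w) : ℝ) ^ (-(2 * x)) := by
            rw [← Real.rpow_natCast, ← Real.rpow_mul hp.le]
            congr 1
            push_cast
            ring
        _ ≤ _ := Real.rpow_le_rpow_of_exponent_le (by linarith) (by linarith)
  refine Summable.tsum_le_tsum h1 ?_ h2
  refine Summable.of_nonneg_of_le (fun w => ?_) (fun w => ?_) hs
  · have := (Nm_pos w).le
    split_ifs <;> positivity
  · have := (Nm_pos w).le
    split_ifs
    · positivity
    · exact le_rfl

end Pool.Agent.R398.AI
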