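import Mathlib
import Pool.Agent.R398.AI.Fib

/-! The inert places of a quadratic extension have density one half. -/

set_option autoImplicit false
set_option linter.unusedSectionVars false

namespace Pool.Agent.R398.AI

open NumberField IsDedekindDomain Filter Topology
open Pool.Agent.R398.AS
open H921R2.TatePole (Lam Lam_tendsto)

variable {K E : Type} [Field K] [NumberField K] [Field E] [NumberField E] [Algebra K E]

theorem pos_rp (v : HeightOneSpectrum (𝓞 K)) (x : ℝ) : 0 ≤ (Nm v : ℝ) ^ (-x) := by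
  have := (Nm_pos v).le
  positivity

theorem rp_le_one (v : HeightOneSpectrum (𝓞 K)) {x : ℝ} (hx : 0 ≤ x) : (Nm v : ℝ) ^ (-x) ≤ 1 :=
  Real.rpow_le_one_of_one_le_of_nonpos (one_le_two.trans (two_le_Nm' v)) (by linarith)

variable (K) in
/-- the sum over all places -/
theorem all_bdd : ∃ C : ℝ, 0 ≤ C ∧ ∀ᶠ x in 𝓝[>] (1 : ℝ),
    |∑' v : HeightOneSpectrum (𝓞 K), (Nm v : ℝ) ^ (-x) - Lam x| ≤ C := by
  obtain ⟨C1, hC1⟩ := H921R2.TatePole.prime_sum_bdd (K := K)
  refine ⟨|C1|, abs_nonneg _, ?_⟩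
  filter_upwards [hC1] with x h
  exact le_trans h (le_abs_self _)

/-- the sum over the inert places -/
theorem inert_lower (h2 : Module.finrank K E = 2) (S : Finset (HeightOneSpectrum (𝓞 K))) :
    ∃ C : ℝ, ∀ᶠ x in 𝓝[>] (1 : ℝ), 1 / 2 * Lam x - C ≤ ∑' v : IP E S, (Nm v.1 : ℝ) ^ (-x) := by
  classical
  obtain ⟨C1, hC1', hC1⟩ := all_bdd K
  obtain ⟨C2, hC2', hC2⟩ := all_bdd E
  set F : Finset (HeightOneSpectrum (𝓞 K)) := S ∪ (RR_finite (K := K) (E := E)).toFinset with hF
  refine ⟨C1 + C2 + F.card, ?_⟩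
  filter_upwards [hC1, hC2, self_mem_nhdsWithin] with x h3 h4 hx
  have hx1 : (1 : ℝ) < x := hx
  have h5 := (abs_le.1 h3).1
  have h6 := (abs_le.1 h4).2
  have h7 := non_inert_le h2 hx1
  have hs := summable_Nm (K := K) hx1
  have hpos : ∀ v : HeightOneSpectrum (𝓞 K), 0 ≤ (Nm v : ℝ) ^ (-x) := fun v => pos_rp v x
  set A : Set (HeightOneSpectrum (𝓞 K)) := {v | v ∉ S ∧ Inert E v} with hA
  set B : Set (HeightOneSpectrum (𝓞 K)) := {v | ¬ Inert E v ∧ v ∉ RR K E} with hB
  have e1 : ∑' v : IP E S, (Nm v.1 : ℝ) ^ (-x) = ∑' v, A.indicator (fun v => (Nm v : ℝ) ^ (-x)) v :=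
    tsum_subtype A (fun v => (Nm v : ℝ) ^ (-x))
  have e2 : ∑' v : {v : HeightOneSpectrum (𝓞 K) // ¬ Inert E v ∧ v ∉ RR K E}, (Nm v.1 : ℝ) ^ (-x) =
      ∑' v, B.indicator (fun v => (Nm v : ℝ) ^ (-x)) v :=
    tsum_subtype B (fun v => (Nm v : ℝ) ^ (-x))
  have e3 : ∑' v, (F : Set (HeightOneSpectrum (𝓞 K))).indicator (fun _ => (1 : ℝ)) v = F.card := by
    rw [← tsum_subtype]
    simp
  have s1 : Summable fun v => A.indicator (fun v => (Nm v : ℝ) ^ (-x)) v := hs.indicator A
  have s2 : Summable fun v => B.indicator (fun v => (Nm v : ℝ) ^ (-x)) v := hs.indicator B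
  have s3 : Summable fun v => (F : Set (HeightOneSpectrum (𝓞 K))).indicator (fun _ => (1 : ℝ)) v := by
    refine summable_of_ne_finset_zero (s := F) fun v hv => ?_
    exact Set.indicator_of_notMem (by simpa using hv) _
  have h8 : ∑' v : HeightOneSpectrum (𝓞 K), (Nm v : ℝ) ^ (-x) ≤
      ∑' v, (A.indicator (fun v => (Nm v : ℝ) ^ (-x)) v + (B.indicator (fun v => (Nm v : ℝ) ^ (-x)) v +
        (F : Set (HeightOneSpectrum (𝓞 K))).indicator (fun _ => (1 : ℝ)) v)) := by
    refine hs.tsum_le_tsum (fun v => ?_) (s1.add (s2.add s3))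
    have i1 : 0 ≤ A.indicator (fun v => (Nm v : ℝ) ^ (-x)) v := Set.indicator_nonneg (fun v _ => hpos v) v
    have i2 : 0 ≤ B.indicator (fun v => (Nm v : ℝ) ^ (-x)) v := Set.indicator_nonneg (fun v _ => hpos v) v
    have i3 : 0 ≤ (F : Set (HeightOneSpectrum (𝓞 K))).indicator (fun _ => (1 : ℝ)) v :=
      Set.indicator_nonneg (fun v _ => zero_le_one) v
    by_cases hvF : v ∈ F
    · have : (F : Set (HeightOneSpectrum (𝓞 K))).indicator (fun _ => (1 : ℝ)) v = 1 :=
        Set.indicator_of_mem (by simpa using hvF) _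
      rw [this]
      have h9 := rp_le_one v (x := x) (by linarith)
      linarith
    · rw [hF, Finset.mem_union, not_or, Set.Finite.mem_toFinset] at hvF
      by_cases hi : Inert E v
      · have : A.indicator (fun v => (Nm v : ℝ) ^ (-x)) v = (Nm v : ℝ) ^ (-x) :=
          Set.indicator_of_mem (show v ∈ A from ⟨hvF.1, hi⟩) _
        linarith
      · have : B.indicator (fun v => (Nm v : ℝ) ^ (-x)) v = (Nm v : ℝ) ^ (-x) :=
          Set.indicator_of_mem (show v ∈ B from ⟨hi, hvF.2⟩) _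
        linarith
  rw [s1.tsum_add (s2.add s3), s2.tsum_add s3, ← e1, ← e2, e3] at h8
  linarith

/-- the sum over the inert places -/
theorem inert_upper (h2 : Module.finrank K E = 2) (S : Finset (HeightOneSpectrum (𝓞 K))) :
    ∃ C : ℝ, ∀ᶠ x in 𝓝[>] (1 : ℝ), ∑' v : IP E S, (Nm v.1 : ℝ) ^ (-x) ≤ 1 / 2 * Lam x + C := by
  classical
  obtain ⟨C1, hC1', hC1⟩ := all_bdd K
  obtain ⟨C2, hC2', hC2⟩ := all_bdd E
  obtain ⟨C3, hC3⟩ := high_bounded (K := K) (M := E)
  refine ⟨C1 + C2 / 2 + C3 / 2, ?_⟩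
  filter_upwards [hC1, hC2, self_mem_nhdsWithin] with x h3 h4 hx
  have hx1 : (1 : ℝ) < x := hx
  have h5 := (abs_le.1 h3).2
  have h6 := (abs_le.1 h4).1
  have h7 := hC3 x hx1
  have hs := summable_Nm (K := K) hx1
  have hsE := summable_Nm (K := E) hx1
  set A : Set (HeightOneSpectrum (𝓞 K)) := {v | v ∉ S ∧ Inert E v} with hA
  have e1 : ∑' v : IP E S, (Nm v.1 : ℝ) ^ (-x) = ∑' v, A.indicator (fun v => (Nm v : ℝ) ^ (-x)) v :=
    tsum_subtype A (fun v => (Nm v : ℝ) ^ (-x))
  have s1 : Summable fun v => A.indicator (fun v => (Nm v : ℝ) ^ (-x)) v := hs.indicator A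
  have s2 : Summable fun w : HeightOneSpectrum (𝓞 E) => (if deg K w = 1 then 0 else (Nm w : ℝ) ^ (-x)) := by
    refine Summable.of_nonneg_of_le (fun w => ?_) (fun w => ?_) hsE
    · split_ifs
      · exact le_rfl
      · exact pos_rp w x
    · split_ifs
      · exact pos_rp w x
      · exact le_rfl
  have f1 := tsum_fib (K := K) hsE
  have f2 := tsum_fib (K := K) s2
  -- fibrewise
  have key : ∀ v : HeightOneSpectrum (𝓞 K), ∑ w ∈ (fiber_finite (K := K) (M := E) v).toFinset, (Nm w : ℝ) ^ (-x) +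
      2 * A.indicator (fun v => (Nm v : ℝ) ^ (-x)) v ≤ 2 * (Nm v : ℝ) ^ (-x) +
        ∑ w ∈ (fiber_finite (K := K) (M := E) v).toFinset, (if deg K w = 1 then 0 else (Nm w : ℝ) ^ (-x)) := by
    intro v
    by_cases hv : v ∈ A
    · rw [Set.indicator_of_mem hv]
      have hw : ∀ w ∈ (fiber_finite (K := K) (M := E) v).toFinset,
          (Nm w : ℝ) ^ (-x) = (if deg K w = 1 then 0 else (Nm w : ℝ) ^ (-x)) := by
        intro w hw
        have hb : bel K w = v := by simpa using hw
        have h8 : Nm w = Nm (bel K w) ^ 2 := by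
          have h9 : w = up v hv.2 := (above_iff hv.2 w).1 (by rw [← hb]; exact above_bel w)
          rw [hb]
          conv_lhs => rw [h9]
          exact Nm_up h2 hv.2
        rw [if_neg]
        rw [deg_eq_of_Nm h8]
        norm_num
      rw [Finset.sum_congr rfl hw]
      linarith
    · rw [Set.indicator_of_notMem hv]
      have h8 : 0 ≤ ∑ w ∈ (fiber_finite (K := K) (M := E) v).toFinset,
          (if deg K w = 1 then 0 else (Nm w : ℝ) ^ (-x)) := by
        refine Finset.sum_nonneg fun w _ => ?_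
        split_ifs
        · exact le_rfl
        · exact pos_rp w x
      have h9 : ∑ w ∈ (fiber_finite (K := K) (M := E) v).toFinset, (Nm w : ℝ) ^ (-x) ≤ 2 * (Nm v : ℝ) ^ (-x) := by
        calc _ ≤ ∑ _w ∈ (fiber_finite (K := K) (M := E) v).toFinset, (Nm v : ℝ) ^ (-x) := by
              refine Finset.sum_le_sum fun w hw => ?_
              have hb : bel K w = v := by simpa using hw
              refine Real.rpow_le_rpow_of_nonpos (Nm_pos v) ?_ (by linarith)
              rw [← hb]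
              exact_mod_cast Nm_le_of_above (above_bel w)
          _ ≤ _ := by
              rw [Finset.sum_const, nsmul_eq_mul]
              refine mul_le_mul_of_nonneg_right ?_ (pos_rp v x)
              have := card_fiber_le (M := E) v
              rw [h2] at this
              exact_mod_cast this
      linarith
  have h10 := (f1.summable.add (s1.mul_left 2)).tsum_le_tsum key ((hs.mul_left 2).add f2.summable)
  rw [f1.summable.tsum_add (s1.mul_left 2), (hs.mul_left 2).tsum_add f2.summable, f1.tsum_eq, f2.tsum_eq,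
    tsum_mul_left, tsum_mul_left, ← e1] at h10
  linarith

end Pool.Agent.R398.AI
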