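import Mathlib
import Pool.Agent.R398.AI.Defs
import Pool.Agent.R398.AI.Quad

/-! The theorem of Kim and Shahidi: nontempered places have density at most `1 / 35`. -/

set_option autoImplicit false
set_option linter.unusedSectionVars false

namespace Pool.Agent.R398.AI

open NumberField IsDedekindDomain Filter Topology
open Pool.Agent.R398.AS

variable {L : Type} [Field L] [NumberField L] {R : Finset (HeightOneSpectrum (𝓞 L))}
  {α : HeightOneSpectrum (𝓞 L) → Fin 2 → ℂ}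

/-- the traces -/
noncomputable def tt (α : HeightOneSpectrum (𝓞 L) → Fin 2 → ℂ) (i : ℕ) (w : HeightOneSpectrum (𝓞 L)) : ℝ :=
  (tr i (α w) 1).re

theorem tt_zero (w : HeightOneSpectrum (𝓞 L)) : tt α 0 w = 1 := by
  unfold tt tr
  simp

/-- the combination -/
noncomputable def PP (α : HeightOneSpectrum (𝓞 L) → Fin 2 → ℂ) (w : HeightOneSpectrum (𝓞 L)) : ℝ :=
  (∑ i ∈ Finset.range 3, (2 * (i : ℝ) + 1) * tt α i w) ^ 2

theorem PP_ge {w : HeightOneSpectrum (𝓞 L)} (h : Uni (α w)) (hn : ¬ ∀ i, ‖α w i‖ = 1) : 35 ^ 2 ≤ PP α w := by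
  have hz := four_le_zz h hn
  have h1 : tt α 1 w = zz (α w) - 1 := by
    unfold tt
    rw [tr_one_one h, Complex.ofReal_re]
  have h2 : tt α 2 w = zz (α w) ^ 2 - 3 * zz (α w) + 1 := by
    unfold tt
    rw [tr_two_one h, Complex.ofReal_re]
  unfold PP
  rw [Finset.sum_range_succ, Finset.sum_range_succ, Finset.sum_range_one, tt_zero, h1, h2]
  push_cast
  refine pow_le_pow_left₀ (by norm_num) ?_ 2
  nlinarith

theorem sum_PP (h : RankinSelberg R α) : ∃ C : ℝ, ∀ x : ℝ, 1 < x →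
    (Summable fun w : {w : HeightOneSpectrum (𝓞 L) // w ∉ R} => PP α w.1 * (Nm w.1 : ℝ) ^ (-x)) ∧
    ∑' w : {w : HeightOneSpectrum (𝓞 L) // w ∉ R}, PP α w.1 * (Nm w.1 : ℝ) ^ (-x) ≤
      35 * ∑' w : {w : HeightOneSpectrum (𝓞 L) // w ∉ R}, (Nm w.1 : ℝ) ^ (-x) + C := by
  choose! C hC using fun i j => h.moments i j
  refine ⟨∑ i ∈ Finset.range 3, ∑ j ∈ Finset.range 3, (2 * (i : ℝ) + 1) * (2 * (j : ℝ) + 1) * C i j,
    fun x hx => ?_⟩
  have hb : ∀ i ∈ Finset.range 3, i ≤ 2 := fun i hi => by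
    have := Finset.mem_range.1 hi
    omega
  have hs0 : Summable fun w : {w : HeightOneSpectrum (𝓞 L) // w ∉ R} => (Nm w.1 : ℝ) ^ (-x) :=
    (summable_Nm (K := L) hx).comp_injective Subtype.val_injective
  have e : ∀ w : {w : HeightOneSpectrum (𝓞 L) // w ∉ R}, PP α w.1 * (Nm w.1 : ℝ) ^ (-x) =
      ∑ i ∈ Finset.range 3, ∑ j ∈ Finset.range 3, (2 * (i : ℝ) + 1) * (2 * (j : ℝ) + 1) *
        ((tr i (α w.1) 1).re * (tr j (α w.1) 1).re * (Nm w.1 : ℝ) ^ (-x)) := by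
    intro w
    unfold PP tt
    rw [sq, Finset.sum_mul_sum, Finset.sum_mul]
    refine Finset.sum_congr rfl fun i _ => ?_
    rw [Finset.sum_mul]
    refine Finset.sum_congr rfl fun j _ => ?_
    ring
  have hs1 : ∀ i ∈ Finset.range 3, ∀ j ∈ Finset.range 3,
      Summable fun w : {w : HeightOneSpectrum (𝓞 L) // w ∉ R} => (2 * (i : ℝ) + 1) * (2 * (j : ℝ) + 1) *
        ((tr i (α w.1) 1).re * (tr j (α w.1) 1).re * (Nm w.1 : ℝ) ^ (-x)) := fun i hi j hj =>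
    ((hC i j (hb i hi) (hb j hj) x hx).1).mul_left _
  have hs2 : Summable fun w : {w : HeightOneSpectrum (𝓞 L) // w ∉ R} => PP α w.1 * (Nm w.1 : ℝ) ^ (-x) := by
    simp_rw [e]
    exact summable_sum fun i hi => summable_sum fun j hj => hs1 i hi j hj
  refine ⟨hs2, ?_⟩
  have e2 : ∑' w : {w : HeightOneSpectrum (𝓞 L) // w ∉ R}, PP α w.1 * (Nm w.1 : ℝ) ^ (-x) =
      ∑ i ∈ Finset.range 3, ∑ j ∈ Finset.range 3, (2 * (i : ℝ) + 1) * (2 * (j : ℝ) + 1) *
        ∑' w : {w : HeightOneSpectrum (𝓞 L) // w ∉ R},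
          ((tr i (α w.1) 1).re * (tr j (α w.1) 1).re * (Nm w.1 : ℝ) ^ (-x)) := by
    simp_rw [e]
    rw [Summable.tsum_finsetSum fun i hi => summable_sum fun j hj => hs1 i hi j hj]
    refine Finset.sum_congr rfl fun i hi => ?_
    rw [Summable.tsum_finsetSum fun j hj => hs1 i hi j hj]
    refine Finset.sum_congr rfl fun j _ => ?_
    rw [tsum_mul_left]
  have e3 : 35 * ∑' w : {w : HeightOneSpectrum (𝓞 L) // w ∉ R}, (Nm w.1 : ℝ) ^ (-x) =
      ∑ i ∈ Finset.range 3, ∑ j ∈ Finset.range 3, (2 * (i : ℝ) + 1) * (2 * (j : ℝ) + 1) *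
        ((if i = j then 1 else 0) * ∑' w : {w : HeightOneSpectrum (𝓞 L) // w ∉ R}, (Nm w.1 : ℝ) ^ (-x)) := by
    simp [Finset.sum_range_succ]
    ring
  rw [e2, e3, ← Finset.sum_add_distrib]
  refine Finset.sum_le_sum fun i hi => ?_
  rw [← Finset.sum_add_distrib]
  refine Finset.sum_le_sum fun j hj => ?_
  have h1 := (hC i j (hb i hi) (hb j hj) x hx).2
  have h2 := (hC i j (hb i hi) (hb j hj) x hx).1
  have h3 : ∑' w : {w : HeightOneSpectrum (𝓞 L) // w ∉ R},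
      ((tr i (α w.1) 1).re * (tr j (α w.1) 1).re - if i = j then 1 else 0) * (Nm w.1 : ℝ) ^ (-x) =
      ∑' w : {w : HeightOneSpectrum (𝓞 L) // w ∉ R},
        ((tr i (α w.1) 1).re * (tr j (α w.1) 1).re * (Nm w.1 : ℝ) ^ (-x)) -
        (if i = j then 1 else 0) * ∑' w : {w : HeightOneSpectrum (𝓞 L) // w ∉ R}, (Nm w.1 : ℝ) ^ (-x) := by
    rw [← tsum_mul_left, ← h2.tsum_sub (hs0.mul_left _)]
    refine tsum_congr fun w => ?_
    ring
  rw [h3] at h1
  have h4 := (abs_le.1 h1).2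
  rw [← mul_add]
  refine mul_le_mul_of_nonneg_left ?_ (by positivity)
  linarith

open scoped Classical in
/-- the nontempered places -/
theorem bad_all (h : RankinSelberg R α) : ∃ C : ℝ, ∀ x : ℝ, 1 < x →
    35 * ∑' w : HeightOneSpectrum (𝓞 L), (if ∀ i, ‖α w i‖ = 1 then 0 else (Nm w : ℝ) ^ (-x)) ≤
      ∑' w : HeightOneSpectrum (𝓞 L), (Nm w : ℝ) ^ (-x) + C := by
  obtain ⟨C, hC⟩ := sum_PP h
  refine ⟨C / 35 + 35 * R.card, fun x hx => ?_⟩
  obtain ⟨h1, h2⟩ := hC x hx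
  have hs := summable_Nm (K := L) hx
  set f : HeightOneSpectrum (𝓞 L) → ℝ := fun w => if ∀ i, ‖α w i‖ = 1 then 0 else (Nm w : ℝ) ^ (-x) with hf
  have f0 : ∀ w, 0 ≤ f w := fun w => by
    rw [hf]
    simp only
    split_ifs
    · exact le_rfl
    · exact pos_rp w x
  have f1 : ∀ w, f w ≤ (Nm w : ℝ) ^ (-x) := fun w => by
    rw [hf]
    simp only
    split_ifs
    · exact pos_rp w x
    · exact le_rfl
  have hfs : Summable f := Summable.of_nonneg_of_le f0 f1 hs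
  have h3 : ∑' w, f w = ∑ w ∈ R, f w + ∑' w : {w : HeightOneSpectrum (𝓞 L) // w ∉ R}, f w.1 :=
    (hfs.sum_add_tsum_subtype_compl R).symm
  have h4 : ∑ w ∈ R, f w ≤ R.card := by
    calc ∑ w ∈ R, f w ≤ ∑ _w ∈ R, (1 : ℝ) := Finset.sum_le_sum fun w _ => (f1 w).trans (rp_le_one w (by linarith))
      _ = _ := by simp
  have hs0 : Summable fun w : {w : HeightOneSpectrum (𝓞 L) // w ∉ R} => (Nm w.1 : ℝ) ^ (-x) :=
    hs.comp_injective Subtype.val_injective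
  have h5 : ∑' w : {w : HeightOneSpectrum (𝓞 L) // w ∉ R}, (Nm w.1 : ℝ) ^ (-x) ≤
      ∑' w : HeightOneSpectrum (𝓞 L), (Nm w : ℝ) ^ (-x) :=
    tsum_comp_le_tsum_of_inj hs (fun w => pos_rp w x) Subtype.val_injective
  have h6 : 35 ^ 2 * ∑' w : {w : HeightOneSpectrum (𝓞 L) // w ∉ R}, f w.1 ≤
      ∑' w : {w : HeightOneSpectrum (𝓞 L) // w ∉ R}, PP α w.1 * (Nm w.1 : ℝ) ^ (-x) := by
    rw [← tsum_mul_left]
    refine Summable.tsum_le_tsum (fun w => ?_) ((hfs.comp_injective Subtype.val_injective).mul_left _) h1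
    rw [hf]
    simp only
    split_ifs with hw
    · rw [mul_zero]
      exact mul_nonneg (sq_nonneg _) (pos_rp w.1 x)
    · exact mul_le_mul_of_nonneg_right (PP_ge (h.unitary w.1 w.2) hw) (pos_rp w.1 x)
  rw [h3]
  linarith

end Pool.Agent.R398.AI
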