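import Mathlib
import Pool.Agent.R398.AI.RS

/-! Places of degree at most two in a Galois extension. -/

set_option autoImplicit false
set_option linter.unusedSectionVars false

namespace Pool.Agent.R398.AI

open NumberField IsDedekindDomain Filter Topology
open Pool.Agent.R398.AS
open scoped Pointwise

section general

variable {K M : Type} [Field K] [NumberField K] [Field M] [NumberField M] [Algebra K M]

/-- outside the ramified places no square divides -/
theorem sq_not_dvd {v : HeightOneSpectrum (𝓞 K)} (hv : v ∉ RR K M) {w : HeightOneSpectrum (𝓞 M)} (h : Above v w) :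
    ¬ w.asIdeal ^ 2 ∣ v.asIdeal.map (algebraMap (𝓞 K) (𝓞 M)) := by
  intro hd
  apply hv
  refine ⟨w, h, ?_⟩
  have hm : v.asIdeal.IsMaximal := v.isPrime.isMaximal v.ne_bot
  have := pow_sub_one_dvd_differentIdeal (𝓞 K) w.asIdeal 2 (p := v.asIdeal) v.ne_bot hd
  simpa using this

theorem bel_of_dvd {v : HeightOneSpectrum (𝓞 K)} {w : HeightOneSpectrum (𝓞 M)}
    (h : w.asIdeal ∣ v.asIdeal.map (algebraMap (𝓞 K) (𝓞 M))) : bel K w = v :=
  bel_of_above (above_of_le (Ideal.dvd_iff_le.1 h))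

/-- the factorization of an unramified place -/
theorem map_eq_prod {v : HeightOneSpectrum (𝓞 K)} (hv : v ∉ RR K M) :
    v.asIdeal.map (algebraMap (𝓞 K) (𝓞 M)) = ∏ w ∈ (fiber_finite (M := M) v).toFinset, w.asIdeal := by
  classical
  have hI0 : v.asIdeal.map (algebraMap (𝓞 K) (𝓞 M)) ≠ ⊥ := Ideal.map_ne_bot_of_ne_bot v.ne_bot
  have hd : ∏ w ∈ (fiber_finite (M := M) v).toFinset, w.asIdeal ∣ v.asIdeal.map (algebraMap (𝓞 K) (𝓞 M)) := by
    have h3 : ∏ w ∈ (fiber_finite (M := M) v).toFinset, w.asIdeal =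
        ∏ I ∈ (fiber_finite (M := M) v).toFinset.image fun w => w.asIdeal, I := by
      rw [Finset.prod_image fun a _ b _ hab => HeightOneSpectrum.ext hab]
    rw [h3]
    refine Finset.prod_primes_dvd _ (fun I hI => ?_) fun I hI => ?_
    · obtain ⟨w, -, rfl⟩ := Finset.mem_image.1 hI
      exact w.prime
    · obtain ⟨w, hw, rfl⟩ := Finset.mem_image.1 hI
      have hw' : bel K w = v := by simpa using hw
      rw [← hw']
      exact dvd_map w
  obtain ⟨J, hJ⟩ := hd
  have hJ1 : J = ⊤ := by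
    by_contra hJ1
    obtain ⟨Q, hQ, hJQ⟩ := Ideal.exists_le_maximal J hJ1
    have hJ0 : J ≠ ⊥ := by
      intro h
      rw [h, Ideal.mul_bot] at hJ
      exact hI0 hJ
    have hQ0 : Q ≠ ⊥ := fun h => hJ0 (le_bot_iff.1 (h ▸ hJQ))
    obtain ⟨J', hJ'⟩ := Ideal.dvd_iff_le.2 hJQ
    let q : HeightOneSpectrum (𝓞 M) := ⟨Q, hQ.isPrime, hQ0⟩
    have hq : bel K q = v := bel_of_dvd (w := q) (by
      rw [hJ, hJ']
      exact ⟨(∏ w ∈ (fiber_finite (M := M) v).toFinset, w.asIdeal) * J', by ring⟩)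
    have hqm : q ∈ (fiber_finite (M := M) v).toFinset := by simpa using hq
    refine sq_not_dvd hv (w := q) (by rw [← hq]; exact above_bel q) ?_
    rw [hJ, hJ', ← Finset.mul_prod_erase _ _ hqm]
    exact ⟨(∏ w ∈ (fiber_finite (M := M) v).toFinset.erase q, w.asIdeal) * J', by
      show q.asIdeal * _ * (q.asIdeal * J') = _
      ring⟩
  rw [hJ, hJ1, Ideal.mul_top]

theorem sum_deg_eq {v : HeightOneSpectrum (𝓞 K)} (hv : v ∉ RR K M) :
    ∑ w ∈ (fiber_finite (M := M) v).toFinset, deg K w = Module.finrank K M := by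
  have h1 := norm_map (M := M) v
  rw [map_eq_prod hv, map_prod] at h1
  have h2 : ∏ w ∈ (fiber_finite (M := M) v).toFinset, Ideal.absNorm w.asIdeal =
      Nm v ^ ∑ w ∈ (fiber_finite (M := M) v).toFinset, deg K w := by
    rw [← Finset.prod_pow_eq_pow_sum]
    refine Finset.prod_congr rfl fun w hw => ?_
    have hw' : bel K w = v := by simpa using hw
    have h3 := Nm_eq_pow (K := K) w
    rw [hw'] at h3
    exact h3
  rw [h2] at h1
  exact Nat.pow_right_injective (two_le_Nm v) h1

end general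

variable {K L : Type} [Field K] [NumberField K] [Field L] [NumberField L] [Algebra K L] [IsGalois K L]

instance galInst : IsGaloisGroup Gal(L/K) (𝓞 K) (𝓞 L) := .of_isFractionRing _ _ _ K L

theorem absNorm_smul (σ : Gal(L/K)) (I : Ideal (𝓞 L)) : Ideal.absNorm (σ • I) = Ideal.absNorm I := by
  rw [Ideal.absNorm_apply, Ideal.absNorm_apply, Submodule.cardQuot_apply, Submodule.cardQuot_apply]
  exact (Nat.card_congr (Ideal.quotientEquiv I (σ • I) (MulSemiringAction.toRingEquiv Gal(L/K) (𝓞 L) σ)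
    rfl).toEquiv).symm

theorem exists_smul {w w' : HeightOneSpectrum (𝓞 L)} (h : bel K w = bel K w') :
    ∃ σ : Gal(L/K), σ • w.asIdeal = w'.asIdeal := by
  have h1 : w.asIdeal.LiesOver (bel K w).asIdeal := ⟨rfl⟩
  have h2 : w'.asIdeal.LiesOver (bel K w).asIdeal := ⟨by rw [h]; rfl⟩
  have h3 := w.isPrime
  have h4 := w'.isPrime
  exact Ideal.exists_smul_eq_of_isGaloisGroup (bel K w).asIdeal w.asIdeal w'.asIdeal Gal(L/K)

theorem deg_eq {w w' : HeightOneSpectrum (𝓞 L)} (h : bel K w = bel K w') : deg K w = deg K w' := by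
  obtain ⟨σ, hσ⟩ := exists_smul h
  refine deg_eq_of_Nm ?_
  have h1 : Nm w = Nm w' := by
    unfold Nm
    rw [← hσ, absNorm_smul]
  rw [h1, Nm_eq_pow (K := K) w', h]

theorem card_fiber_mul {v : HeightOneSpectrum (𝓞 K)} (hv : v ∉ RR K L) {w : HeightOneSpectrum (𝓞 L)}
    (hw : bel K w = v) : (fiber_finite (M := L) v).toFinset.card * deg K w = Module.finrank K L := by
  rw [← sum_deg_eq hv, ← smul_eq_mul, ← Finset.sum_const]
  refine Finset.sum_congr rfl fun w' hw' => ?_
  have h1 : bel K w' = v := by simpa using hw'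
  exact deg_eq (hw.trans h1.symm)

theorem card_primesOver {v : HeightOneSpectrum (𝓞 K)} :
    (v.asIdeal.primesOver (𝓞 L)).ncard = (fiber_finite (M := L) v).toFinset.card := by
  classical
  have h1 : v.asIdeal.primesOver (𝓞 L) =
      ((fiber_finite (K := K) (M := L) v).toFinset.image fun w => w.asIdeal : Finset (Ideal (𝓞 L))) := by
    ext P
    simp only [Finset.coe_image, Set.Finite.coe_toFinset, Set.mem_image, Set.mem_ofPred_eq]
    constructor
    · rintro ⟨hP, hPv⟩
      have hP0 : P ≠ ⊥ := by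
        rintro rfl
        have := hPv.over
        rw [Ideal.under_bot] at this
        exact v.ne_bot this
      exact ⟨⟨P, hP, hP0⟩, HeightOneSpectrum.ext hPv.over.symm, rfl⟩
    · rintro ⟨w, hw, rfl⟩
      exact ⟨w.isPrime, ⟨by rw [← hw]; rfl⟩⟩
  rw [h1, Set.ncard_coe_finset, Finset.card_image_of_injective]
  exact fun a b hab => HeightOneSpectrum.ext hab

/-- the order of the decomposition group -/
theorem card_stab {v : HeightOneSpectrum (𝓞 K)} (hv : v ∉ RR K L) {w : HeightOneSpectrum (𝓞 L)}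
    (hw : bel K w = v) : Nat.card (MulAction.stabilizer Gal(L/K) w.asIdeal) = deg K w := by
  have h1 : w.asIdeal.LiesOver v.asIdeal := ⟨by rw [← hw]; rfl⟩
  have h2 := w.isPrime
  have h3 := Nat.card_congr (MulAction.orbitProdStabilizerEquivGroup Gal(L/K) w.asIdeal)
  rw [Nat.card_prod, IsGaloisGroup.card_eq_finrank Gal(L/K) K L,
    Algebra.IsInvariant.orbit_eq_primesOver (𝓞 K) (𝓞 L) Gal(L/K) v.asIdeal w.asIdeal] at h3
  have h4 : Nat.card (v.asIdeal.primesOver (𝓞 L)) = (fiber_finite (M := L) v).toFinset.card :=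
    card_primesOver
  rw [h4, ← card_fiber_mul hv hw] at h3
  refine Nat.eq_of_mul_eq_mul_left ?_ h3
  rw [Finset.card_pos]
  exact ⟨w, by simpa using hw⟩

end Pool.Agent.R398.AI
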