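import Mathlib
import Pool.Agent.R398.AI.Gal

/-! Places of degree two in a Galois extension and the fixed fields of the involutions. -/

set_option autoImplicit false
set_option linter.unusedSectionVars false

namespace Pool.Agent.R398.AI

open NumberField IsDedekindDomain Filter Topology
open Pool.Agent.R398.AS
open scoped Pointwise

variable {K L : Type} [Field K] [NumberField K] [Field L] [NumberField L] [Algebra K L] [IsGalois K L]

/-- the fixed field -/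
abbrev FF (σ : Gal(L/K)) : IntermediateField K L := FixedPoints.intermediateField (Subgroup.zpowers σ)

instance galFF0 (σ : Gal(L/K)) : IsGaloisGroup (Subgroup.zpowers σ) (FF σ) L :=
  IsGaloisGroup.subgroup Gal(L/K) K L (Subgroup.zpowers σ)

instance galFF (σ : Gal(L/K)) : IsGaloisGroup (Subgroup.zpowers σ) (𝓞 (FF σ)) (𝓞 L) :=
  IsGaloisGroup.of_isFractionRing _ _ _ (FF σ) L

theorem finrank_FF {σ : Gal(L/K)} (h1 : σ ≠ 1) (h2 : σ * σ = 1) : Module.finrank (FF σ) L = 2 := by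
  rw [← IsGaloisGroup.card_eq_finrank (Subgroup.zpowers σ) (FF σ) L, Nat.card_zpowers]
  exact orderOf_eq_prime (by rw [sq]; exact h2) h1

theorem bel_bel (σ : Gal(L/K)) (w : HeightOneSpectrum (𝓞 L)) : bel K (bel (FF σ) w) = bel K w := by
  refine HeightOneSpectrum.ext ?_
  show ((w.asIdeal.comap (algebraMap (𝓞 (FF σ)) (𝓞 L))).comap (algebraMap (𝓞 K) (𝓞 (FF σ)))) =
    w.asIdeal.comap (algebraMap (𝓞 K) (𝓞 L))
  rw [Ideal.comap_comap, ← IsScalarTower.algebraMap_eq]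

theorem map_dvd_map (σ : Gal(L/K)) (u : HeightOneSpectrum (𝓞 (FF σ))) :
    u.asIdeal.map (algebraMap (𝓞 (FF σ)) (𝓞 L)) ∣ (bel K u).asIdeal.map (algebraMap (𝓞 K) (𝓞 L)) := by
  rw [IsScalarTower.algebraMap_eq (𝓞 K) (𝓞 (FF σ)) (𝓞 L), ← Ideal.map_map, Ideal.dvd_iff_le]
  refine Ideal.map_mono ?_
  rw [Ideal.map_le_iff_le_comap]
  exact le_rfl

/-- an involution in the decomposition group determines it -/
theorem stab_unique {w : HeightOneSpectrum (𝓞 L)} (hv : bel K w ∉ RR K L) (hd : deg K w = 2)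
    {σ τ : Gal(L/K)} (hσ : σ • w.asIdeal = w.asIdeal) (hτ : τ • w.asIdeal = w.asIdeal) (h1 : σ ≠ 1) (h2 : τ ≠ 1) :
    σ = τ := by
  have h3 := card_stab hv rfl
  rw [hd, Nat.card_eq_two_iff' 1] at h3
  have h4 := h3.unique (y₁ := ⟨σ, hσ⟩) (y₂ := ⟨τ, hτ⟩) (fun h => h1 (congrArg Subtype.val h))
    (fun h => h2 (congrArg Subtype.val h))
  exact congrArg Subtype.val h4

/-- a place of degree two is inert over the decomposition field -/
theorem exists_inv {w : HeightOneSpectrum (𝓞 L)} (hv : bel K w ∉ RR K L) (hd : deg K w = 2) :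
    ∃ (σ : Gal(L/K)) (_ : σ ≠ 1) (_ : σ * σ = 1) (h : Inert L (bel (FF σ) w)),
      up (bel (FF σ) w) h = w ∧ Nm (bel (FF σ) w) = Nm (bel K w) := by
  have h3 := card_stab hv rfl
  rw [hd] at h3
  have h4 := h3
  rw [Nat.card_eq_two_iff' 1] at h4
  obtain ⟨⟨σ, hσ⟩, h5, h6⟩ := h4
  have hσ1 : σ ≠ 1 := fun h => h5 (Subtype.ext h)
  have hσ2 : σ * σ = 1 := by
    have h7 : (⟨σ, hσ⟩ : MulAction.stabilizer Gal(L/K) w.asIdeal) ^ 2 = 1 := by
      rw [← h3]
      exact pow_card_eq_one'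
    rw [← sq]
    exact congrArg Subtype.val h7
  -- the only place above
  have huniq : ∀ w' : HeightOneSpectrum (𝓞 L), bel (FF σ) w' = bel (FF σ) w → w' = w := by
    intro w' hw'
    have i1 : w.asIdeal.LiesOver (bel (FF σ) w).asIdeal := ⟨rfl⟩
    have i2 : w'.asIdeal.LiesOver (bel (FF σ) w).asIdeal := ⟨by rw [← hw']; rfl⟩
    have i3 := w.isPrime
    have i4 := w'.isPrime
    obtain ⟨⟨τ, hτ⟩, hτ2⟩ := Ideal.exists_smul_eq_of_isGaloisGroup (bel (FF σ) w).asIdeal w.asIdeal w'.asIdeal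
      (Subgroup.zpowers σ)
    have h7 : τ ∈ MulAction.stabilizer Gal(L/K) w.asIdeal :=
      (Subgroup.zpowers_le.2 hσ) hτ
    have h8 : τ • w.asIdeal = w'.asIdeal := hτ2
    have h9 : τ • w.asIdeal = w.asIdeal := h7
    exact HeightOneSpectrum.ext (h8.symm.trans h9)
  set I := (bel (FF σ) w).asIdeal.map (algebraMap (𝓞 (FF σ)) (𝓞 L)) with hI
  have hI0 : I ≠ ⊥ := Ideal.map_ne_bot_of_ne_bot (bel (FF σ) w).ne_bot
  have hIw : I = w.asIdeal := by
    obtain ⟨J, hJ⟩ := dvd_map (K := FF σ) w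
    rw [← hI] at hJ
    have hJ1 : J = ⊤ := by
      by_contra hJ1
      obtain ⟨Q, hQ, hJQ⟩ := Ideal.exists_le_maximal J hJ1
      have hJ0 : J ≠ ⊥ := by
        intro h
        rw [h, Ideal.mul_bot] at hJ
        exact hI0 hJ
      have hQ0 : Q ≠ ⊥ := fun h => hJ0 (le_bot_iff.1 (h ▸ hJQ))
      obtain ⟨J', hJ'⟩ := Ideal.dvd_iff_le.2 hJQ
      let q : HeightOneSpectrum (𝓞 L) := ⟨Q, hQ.isPrime, hQ0⟩
      have hq : bel (FF σ) q = bel (FF σ) w := bel_of_dvd (w := q) (by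
        rw [← hI, hJ, hJ']
        exact ⟨w.asIdeal * J', by ring⟩)
      have hqw := huniq q hq
      have hQw : Q = w.asIdeal := congrArg HeightOneSpectrum.asIdeal hqw
      refine sq_not_dvd hv (above_bel w) ?_
      have h7 := map_dvd_map σ (bel (FF σ) w)
      rw [bel_bel] at h7
      refine dvd_trans ?_ h7
      rw [← hI, hJ, hJ', hQw]
      exact ⟨J', by ring⟩
    rw [hJ, hJ1, Ideal.mul_top]
  have hin : Inert L (bel (FF σ) w) := by
    unfold Inert
    rw [← hI, hIw]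
    exact w.isPrime
  have hup : up (bel (FF σ) w) hin = w := HeightOneSpectrum.ext hIw
  refine ⟨σ, hσ1, hσ2, hin, hup, ?_⟩
  have h7 := Nm_up (finrank_FF hσ1 hσ2) hin
  rw [hup, Nm_eq_pow (K := K) w, hd] at h7
  exact (Nat.pow_left_injective (n := 2) (by norm_num) h7).symm

theorem bel_up {σ : Gal(L/K)} {u : HeightOneSpectrum (𝓞 (FF σ))} (h : Inert L u) :
    bel (FF σ) (up u h) = u :=
  bel_of_above ((above_iff h _).2 rfl)

theorem bel_K_up {σ : Gal(L/K)} {u : HeightOneSpectrum (𝓞 (FF σ))} (h : Inert L u) :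
    bel K (up u h) = bel K u := by
  rw [← bel_bel σ, bel_up]

theorem deg_up {σ : Gal(L/K)} (h1 : σ ≠ 1) (h2 : σ * σ = 1) {u : HeightOneSpectrum (𝓞 (FF σ))} (h : Inert L u)
    (hd : deg K u = 1) : deg K (up u h) = 2 := by
  refine deg_eq_of_Nm ?_
  rw [Nm_up (finrank_FF h1 h2) h, bel_K_up, Nm_eq_pow (K := K) u, hd, pow_one]

theorem smul_up {σ : Gal(L/K)} {u : HeightOneSpectrum (𝓞 (FF σ))} (h : Inert L u) :
    σ • (up u h).asIdeal = (up u h).asIdeal := by
  show σ • (u.asIdeal.map (algebraMap (𝓞 (FF σ)) (𝓞 L))) = u.asIdeal.map (algebraMap (𝓞 (FF σ)) (𝓞 L))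
  rw [Ideal.pointwise_smul_def, Ideal.map_map]
  congr 1
  ext x
  have h1 : (⟨σ, Subgroup.mem_zpowers σ⟩ : Subgroup.zpowers σ) • algebraMap (FF σ) L (x : FF σ) =
      algebraMap (FF σ) L (x : FF σ) := by
    have := (galFF0 σ).commutes
    exact smul_algebraMap _ _
  exact h1

theorem up_inj {σ τ : Gal(L/K)} (hσ1 : σ ≠ 1) (hσ2 : σ * σ = 1) (hτ1 : τ ≠ 1)
    {u : HeightOneSpectrum (𝓞 (FF σ))} (h : Inert L u) {u' : HeightOneSpectrum (𝓞 (FF τ))} (h' : Inert L u')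
    (hv : bel K u ∉ RR K L) (hd : deg K u = 1) (he : up u h = up u' h') : σ = τ := by
  refine stab_unique (w := up u h) (by rw [bel_K_up]; exact hv) (deg_up hσ1 hσ2 h hd) (smul_up h) ?_ hσ1 hτ1
  rw [he]
  exact smul_up h'

end Pool.Agent.R398.AI
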