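import Mathlib
import Pool.Agent.R398.AI.Inv

/-! Counting the places at which a representation is tempered at all places above. -/

set_option autoImplicit false
set_option linter.unusedSectionVars false

namespace Pool.Agent.R398.AI

open NumberField IsDedekindDomain Filter Topology
open Pool.Agent.R398.AS
open H921R2.TatePole (Lam Lam_tendsto)

variable {K L : Type} [Field K] [NumberField K] [Field L] [NumberField L] [Algebra K L]

section

variable {M : Type} [Field M] [NumberField M] [Algebra K M]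

theorem summable_ite {x : ℝ} (hx : 1 < x) (p : HeightOneSpectrum (𝓞 M) → Prop) [DecidablePred p] :
    Summable fun w : HeightOneSpectrum (𝓞 M) => (if p w then (Nm w : ℝ) ^ (-x) else 0) := by
  refine Summable.of_nonneg_of_le (fun w => ?_) (fun w => ?_) (summable_Nm (K := M) hx)
  · split_ifs
    · exact pos_rp w x
    · exact le_rfl
  · split_ifs
    · exact le_rfl
    · exact pos_rp w x

theorem summable_ite_bel {x : ℝ} (hx : 1 < x) (p : HeightOneSpectrum (𝓞 M) → Prop) [DecidablePred p] :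
    Summable fun w : HeightOneSpectrum (𝓞 M) => (if p w then (Nm (bel K w) : ℝ) ^ (-x) else 0) := by
  refine Summable.of_nonneg_of_le (fun w => ?_) (fun w => ?_) (summable_bel (K := K) (M := M) hx)
  · split_ifs
    · exact pos_rp _ x
    · exact le_rfl
  · split_ifs
    · exact le_rfl
    · exact pos_rp _ x

/-- a finite set of places is negligible -/
theorem fin_bdd {x : ℝ} (hx : 1 < x) {p : HeightOneSpectrum (𝓞 M) → Prop} [DecidablePred p]
    (hZ : {w | p w}.Finite) :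
    ∑' w : HeightOneSpectrum (𝓞 M), (if p w then (Nm w : ℝ) ^ (-x) else 0) ≤ hZ.toFinset.card := by
  rw [tsum_eq_sum (s := hZ.toFinset) fun w hw => if_neg (by simpa using hw)]
  calc _ ≤ ∑ _w ∈ hZ.toFinset, (1 : ℝ) := by
        refine Finset.sum_le_sum fun w _ => ?_
        split_ifs
        · exact rp_le_one w (by linarith)
        · exact zero_le_one
    _ = _ := by simp

open scoped Classical in
/-- the places of degree one -/
theorem deg_one_lower : ∃ C : ℝ, ∀ᶠ x in 𝓝[>] (1 : ℝ),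
    Lam x - C ≤ ∑' w : HeightOneSpectrum (𝓞 M), (if deg K w = 1 then (Nm w : ℝ) ^ (-x) else 0) := by
  obtain ⟨C1, -, hC1⟩ := all_bdd M
  obtain ⟨C2, hC2⟩ := high_bounded (K := K) (M := M)
  refine ⟨C1 + C2, ?_⟩
  filter_upwards [hC1, self_mem_nhdsWithin] with x h1 hx
  have hx1 : (1 : ℝ) < x := hx
  have h2 := hC2 x hx1
  have h3 := (abs_le.1 h1).1
  have s1 := summable_ite (M := M) hx1 fun w => deg K w = 1
  have s2 : Summable fun w : HeightOneSpectrum (𝓞 M) => (if deg K w = 1 then 0 else (Nm w : ℝ) ^ (-x)) := by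
    refine (summable_ite (M := M) hx1 fun w => ¬ deg K w = 1).congr fun w => ?_
    split_ifs <;> simp_all
  have e : ∑' w : HeightOneSpectrum (𝓞 M), (Nm w : ℝ) ^ (-x) =
      ∑' w : HeightOneSpectrum (𝓞 M), (if deg K w = 1 then (Nm w : ℝ) ^ (-x) else 0) +
      ∑' w : HeightOneSpectrum (𝓞 M), (if deg K w = 1 then 0 else (Nm w : ℝ) ^ (-x)) := by
    rw [← s1.tsum_add s2]
    refine tsum_congr fun w => ?_
    split_ifs <;> simp
  linarith

theorem bel_fin {Z : Set (HeightOneSpectrum (𝓞 K))} (hZ : Z.Finite) :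
    {w : HeightOneSpectrum (𝓞 M) | bel K w ∈ Z}.Finite := by
  have h1 : {w : HeightOneSpectrum (𝓞 M) | bel K w ∈ Z} = ⋃ v ∈ Z, {w | bel K w = v} := by
    ext w
    simp
  rw [h1]
  exact hZ.biUnion fun v _ => fiber_finite v

end

variable [IsGalois K L]

open scoped Classical in
/-- the inert places of degree one -/
theorem inert_one_lower {σ : Gal(L/K)} (hσ1 : σ ≠ 1) (hσ2 : σ * σ = 1)
    (S : Finset (HeightOneSpectrum (𝓞 (FF σ)))) : ∃ C : ℝ, ∀ᶠ x in 𝓝[>] (1 : ℝ),
    1 / 2 * Lam x - C ≤ ∑' u : IP L S, (if bel K u.1 ∉ RR K L ∧ deg K u.1 = 1 then (Nm u.1 : ℝ) ^ (-x) else 0) := by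
  obtain ⟨C1, hC1⟩ := inert_lower (finrank_FF hσ1 hσ2) S
  obtain ⟨C2, hC2⟩ := high_bounded (K := K) (M := FF σ)
  have hfin := bel_fin (M := FF σ) (RR_finite (K := K) (E := L))
  refine ⟨C1 + C2 + hfin.toFinset.card, ?_⟩
  filter_upwards [hC1, self_mem_nhdsWithin] with x h1 hx
  have hx1 : (1 : ℝ) < x := hx
  have h2 := hC2 x hx1
  have h3 := fin_bdd hx1 hfin
  have s1 := summable_ite (M := FF σ) hx1 fun w => bel K w ∈ RR K L
  have s2 : Summable fun w : HeightOneSpectrum (𝓞 (FF σ)) => (if deg K w = 1 then 0 else (Nm w : ℝ) ^ (-x)) := by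
    refine (summable_ite (M := FF σ) hx1 fun w => ¬ deg K w = 1).congr fun w => ?_
    split_ifs <;> simp_all
  have s3 : Summable fun u : IP L S =>
      (if bel K u.1 ∉ RR K L ∧ deg K u.1 = 1 then (Nm u.1 : ℝ) ^ (-x) else 0) :=
    (summable_ite (M := FF σ) hx1 fun w => bel K w ∉ RR K L ∧ deg K w = 1).comp_injective Subtype.val_injective
  have s0 : Summable fun u : IP L S => (Nm u.1 : ℝ) ^ (-x) :=
    (summable_Nm (K := FF σ) hx1).comp_injective Subtype.val_injective
  have s1' : Summable fun u : IP L S => (if bel K u.1 ∈ RR K L then (Nm u.1 : ℝ) ^ (-x) else 0) :=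
    s1.comp_injective Subtype.val_injective
  have s2' : Summable fun u : IP L S => (if deg K u.1 = 1 then 0 else (Nm u.1 : ℝ) ^ (-x)) :=
    s2.comp_injective Subtype.val_injective
  have h4 : ∑' u : IP L S, (Nm u.1 : ℝ) ^ (-x) ≤
      ∑' u : IP L S, ((if bel K u.1 ∉ RR K L ∧ deg K u.1 = 1 then (Nm u.1 : ℝ) ^ (-x) else 0) +
        ((if bel K u.1 ∈ RR K L then (Nm u.1 : ℝ) ^ (-x) else 0) +
          (if deg K u.1 = 1 then 0 else (Nm u.1 : ℝ) ^ (-x)))) := by
    refine s0.tsum_le_tsum (fun u => ?_) (s3.add (s1'.add s2'))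
    have := pos_rp u.1 x
    by_cases i1 : bel K u.1 ∈ RR K L
    · by_cases i2 : deg K u.1 = 1
      · simp [i1, i2]
      · simp only [i1, i2, not_true_eq_false, false_and, if_false, if_true]
        linarith
    · by_cases i2 : deg K u.1 = 1
      · simp [i1, i2]
      · simp [i1, i2]
  rw [s3.tsum_add (s1'.add s2'), s1'.tsum_add s2'] at h4
  have h5 : ∑' u : IP L S, (if bel K u.1 ∈ RR K L then (Nm u.1 : ℝ) ^ (-x) else 0) ≤
      ∑' w : HeightOneSpectrum (𝓞 (FF σ)), (if bel K w ∈ RR K L then (Nm w : ℝ) ^ (-x) else 0) :=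
    tsum_comp_le_tsum_of_inj s1 (fun w => by
      split_ifs
      · exact pos_rp w x
      · exact le_rfl) Subtype.val_injective
  have h6 : ∑' u : IP L S, (if deg K u.1 = 1 then 0 else (Nm u.1 : ℝ) ^ (-x)) ≤
      ∑' w : HeightOneSpectrum (𝓞 (FF σ)), (if deg K w = 1 then 0 else (Nm w : ℝ) ^ (-x)) :=
    tsum_comp_le_tsum_of_inj s2 (fun w => by
      split_ifs
      · exact le_rfl
      · exact pos_rp w x) Subtype.val_injective
  linarith

variable (K L) in
/-- the involutions -/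
abbrev Inv : Type := {σ : Gal(L/K) // σ ≠ 1 ∧ σ * σ = 1}

/-- pairs of an involution and an inert place -/
abbrev XX (S : ∀ σ : Gal(L/K), Finset (HeightOneSpectrum (𝓞 (FF σ)))) : Type := Σ σ : Inv K L, IP L (S σ.1)

variable {S : ∀ σ : Gal(L/K), Finset (HeightOneSpectrum (𝓞 (FF σ)))}

/-- the place above -/
noncomputable def uu (y : XX S) : HeightOneSpectrum (𝓞 L) := up y.2.1 y.2.2.2

theorem uu_inj {y z : XX S} (hv : bel K y.2.1 ∉ RR K L) (hd : deg K y.2.1 = 1) (h : uu y = uu z) : y = z := by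
  obtain ⟨⟨σ, hσ⟩, u⟩ := y
  obtain ⟨⟨τ, hτ⟩, u'⟩ := z
  have h1 : σ = τ := up_inj hσ.1 hσ.2 hτ.1 u.2.2 u'.2.2 hv hd h
  subst h1
  have h2 : u = u' := up_injective h
  rw [h2]

theorem summable_XX {x : ℝ} (hx : 1 < x) : Summable fun y : XX S => (Nm y.2.1 : ℝ) ^ (-x) := by
  have hfin : Finite (Inv K L) := inferInstance
  refine (summable_sigma_of_nonneg fun y => pos_rp _ x).2 ⟨fun σ => ?_, ?_⟩
  · exact (summable_Nm (K := FF σ.1) hx).comp_injective Subtype.val_injective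
  · exact Summable.of_finite

open scoped Classical in
/-- the places of degree two -/
theorem deg_two_lower : ∃ C : ℝ, ∀ᶠ x in 𝓝[>] (1 : ℝ),
    Nat.card (Inv K L) * (1 / 2 * Lam x) - C ≤
      ∑' w : HeightOneSpectrum (𝓞 L), (if deg K w = 2 then (Nm (bel K w) : ℝ) ^ (-x) else 0) := by
  have hfin : Fintype (Inv K L) := Fintype.ofFinite _
  choose C hC using fun σ : Inv K L => inert_one_lower σ.2.1 σ.2.2 (∅ : Finset (HeightOneSpectrum (𝓞 (FF σ.1))))
  refine ⟨∑ σ, C σ, ?_⟩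
  filter_upwards [Filter.eventually_all.2 hC, self_mem_nhdsWithin] with x h1 hx
  have hx1 : (1 : ℝ) < x := hx
  let S : ∀ σ : Gal(L/K), Finset (HeightOneSpectrum (𝓞 (FF σ))) := fun _ => ∅
  -- the good pairs
  let Y : Type := {y : XX S // bel K y.2.1 ∉ RR K L ∧ deg K y.2.1 = 1}
  have hs := summable_XX (S := S) hx1
  have e1 : ∑' y : Y, (Nm y.1.2.1 : ℝ) ^ (-x) =
      ∑' y : XX S, (if bel K y.2.1 ∉ RR K L ∧ deg K y.2.1 = 1 then (Nm y.2.1 : ℝ) ^ (-x) else 0) := by
    refine (tsum_subtype {y : XX S | bel K y.2.1 ∉ RR K L ∧ deg K y.2.1 = 1}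
      (fun y => (Nm y.2.1 : ℝ) ^ (-x))).trans ?_
    refine tsum_congr fun y => ?_
    rw [Set.indicator_apply]
    rfl
  have hs' : Summable fun y : XX S =>
      (if bel K y.2.1 ∉ RR K L ∧ deg K y.2.1 = 1 then (Nm y.2.1 : ℝ) ^ (-x) else 0) := by
    refine Summable.of_nonneg_of_le (fun y => ?_) (fun y => ?_) hs
    · split_ifs
      · exact pos_rp _ x
      · exact le_rfl
    · split_ifs
      · exact le_rfl
      · exact pos_rp _ x
  have e2 : ∑' y : XX S, (if bel K y.2.1 ∉ RR K L ∧ deg K y.2.1 = 1 then (Nm y.2.1 : ℝ) ^ (-x) else 0) =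
      ∑ σ : Inv K L, ∑' u : IP L (∅ : Finset (HeightOneSpectrum (𝓞 (FF σ.1)))),
        (if bel K u.1 ∉ RR K L ∧ deg K u.1 = 1 then (Nm u.1 : ℝ) ^ (-x) else 0) := by
    rw [hs'.tsum_sigma, tsum_fintype]
  have h2 : ∑ σ : Inv K L, (1 / 2 * Lam x - C σ) ≤ ∑ σ : Inv K L,
      ∑' u : IP L (∅ : Finset (HeightOneSpectrum (𝓞 (FF σ.1)))),
        (if bel K u.1 ∉ RR K L ∧ deg K u.1 = 1 then (Nm u.1 : ℝ) ^ (-x) else 0) :=
    Finset.sum_le_sum fun σ _ => h1 σ
  rw [Finset.sum_sub_distrib, Finset.sum_const, Finset.card_univ, nsmul_eq_mul, ← Nat.card_eq_fintype_card] at h2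
  -- the injection
  let g : Y → HeightOneSpectrum (𝓞 L) := fun y => uu y.1
  have hg : Function.Injective g := fun y z h => Subtype.ext (uu_inj y.2.1 y.2.2 h)
  have h3 : ∑' y : Y, (Nm y.1.2.1 : ℝ) ^ (-x) ≤
      ∑' w : HeightOneSpectrum (𝓞 L), (if deg K w = 2 then (Nm (bel K w) : ℝ) ^ (-x) else 0) := by
    have h4 : ∑' y : Y, (if deg K (g y) = 2 then (Nm (bel K (g y)) : ℝ) ^ (-x) else 0) ≤
        ∑' w : HeightOneSpectrum (𝓞 L), (if deg K w = 2 then (Nm (bel K w) : ℝ) ^ (-x) else 0) :=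
      tsum_comp_le_tsum_of_inj (summable_ite_bel (K := K) (M := L) hx1 fun w => deg K w = 2) (fun w => by
        split_ifs
        · exact pos_rp _ x
        · exact le_rfl) hg
    refine le_trans (le_of_eq ?_) h4
    refine tsum_congr fun y => ?_
    have h5 : deg K (g y) = 2 := deg_up y.1.1.2.1 y.1.1.2.2 y.1.2.2.2 y.2.2
    have h6 : bel K (g y) = bel K y.1.2.1 := bel_K_up y.1.2.2.2
    rw [if_pos h5, h6, Nm_eq_pow (K := K) y.1.2.1, y.2.2, pow_one]
  rw [e1, e2] at h3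
  linarith

end Pool.Agent.R398.AI
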