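import Mathlib
import Pool.Agent.R398.AI.Cnt

/-! The representation is tempered at all places above many places. -/

set_option autoImplicit false
set_option linter.unusedSectionVars false

namespace Pool.Agent.R398.AI

open NumberField IsDedekindDomain Filter Topology
open Pool.Agent.R398.AS
open H921R2.TatePole (Lam Lam_tendsto)

variable {K L : Type} [Field K] [NumberField K] [Field L] [NumberField L] [Algebra K L]

/-- tempered at `w` -/
def TW (α : HeightOneSpectrum (𝓞 L) → Fin 2 → ℂ) (w : HeightOneSpectrum (𝓞 L)) : Prop := ∀ i, ‖α w i‖ = 1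

variable (K) in
/-- tempered at all places above `v` -/
def TV (α : HeightOneSpectrum (𝓞 L) → Fin 2 → ℂ) (v : HeightOneSpectrum (𝓞 K)) : Prop :=
  ∀ w : HeightOneSpectrum (𝓞 L), bel K w = v → TW α w

variable (K) in
/-- the weight of a place -/
noncomputable def wt (w : HeightOneSpectrum (𝓞 L)) : ℝ :=
  (if deg K w ≤ 2 then (deg K w : ℝ) else 0) / Module.finrank K L

theorem finrank_pos' : (0 : ℝ) < Module.finrank K L := by
  exact_mod_cast Module.finrank_pos

theorem wt_nonneg (w : HeightOneSpectrum (𝓞 L)) : 0 ≤ wt K w := by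
  unfold wt
  refine div_nonneg ?_ finrank_pos'.le
  split_ifs
  · exact Nat.cast_nonneg _
  · exact le_rfl

theorem wt_le (w : HeightOneSpectrum (𝓞 L)) : wt K w ≤ deg K w / Module.finrank K L := by
  unfold wt
  refine div_le_div_of_nonneg_right ?_ finrank_pos'.le
  split_ifs
  · exact le_rfl
  · exact Nat.cast_nonneg _

theorem sum_wt_le (v : HeightOneSpectrum (𝓞 K)) :
    ∑ w ∈ (fiber_finite (M := L) v).toFinset, wt K w ≤ 1 := by
  calc _ ≤ ∑ w ∈ (fiber_finite (M := L) v).toFinset, (deg K w : ℝ) / Module.finrank K L :=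
        Finset.sum_le_sum fun w _ => wt_le w
    _ = ((∑ w ∈ (fiber_finite (M := L) v).toFinset, deg K w : ℕ) : ℝ) / Module.finrank K L := by
        rw [← Finset.sum_div]
        push_cast
        rfl
    _ ≤ 1 := by
        rw [div_le_one finrank_pos']
        exact_mod_cast sum_deg_le v

open scoped Classical in
/-- the contribution of a nontempered place -/
noncomputable def b1 (K : Type) [Field K] [NumberField K] [Algebra K L]
    (α : HeightOneSpectrum (𝓞 L) → Fin 2 → ℂ) (x : ℝ) (w : HeightOneSpectrum (𝓞 L)) : ℝ :=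
  if deg K w = 1 ∧ ¬ TW α w then (Nm w : ℝ) ^ (-x) else 0

open scoped Classical in
/-- the contribution of a nontempered place -/
noncomputable def b2 (K : Type) [Field K] [NumberField K] [Algebra K L]
    (α : HeightOneSpectrum (𝓞 L) → Fin 2 → ℂ) (x : ℝ) (w : HeightOneSpectrum (𝓞 L)) : ℝ :=
  if deg K w = 2 ∧ ¬ TW α w then (Nm (bel K w) : ℝ) ^ (-x) else 0

variable {α : HeightOneSpectrum (𝓞 L) → Fin 2 → ℂ}

theorem b1_nonneg (x : ℝ) (w : HeightOneSpectrum (𝓞 L)) : 0 ≤ b1 K α x w := by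
  unfold b1
  split_ifs
  · exact pos_rp w x
  · exact le_rfl

theorem b2_nonneg (x : ℝ) (w : HeightOneSpectrum (𝓞 L)) : 0 ≤ b2 K α x w := by
  unfold b2
  split_ifs
  · exact pos_rp _ x
  · exact le_rfl

theorem summable_b1 {x : ℝ} (hx : 1 < x) : Summable (b1 K α x) := by
  classical
  refine (summable_ite (M := L) hx fun w => deg K w = 1 ∧ ¬ TW α w).congr fun w => ?_
  unfold b1
  congr

theorem summable_b2 {x : ℝ} (hx : 1 < x) : Summable (b2 K α x) := by
  classical
  refine (summable_ite_bel (K := K) (M := L) hx fun w => deg K w = 2 ∧ ¬ TW α w).congr fun w => ?_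
  unfold b2
  congr

theorem sum_b1 {R : Finset (HeightOneSpectrum (𝓞 L))} (h : RankinSelberg R α) :
    ∃ C : ℝ, ∀ᶠ x in 𝓝[>] (1 : ℝ), ∑' w, b1 K α x w ≤ 1 / 35 * Lam x + C := by
  classical
  obtain ⟨C, hC⟩ := bad_all h
  obtain ⟨C1, -, hC1⟩ := all_bdd L
  refine ⟨1 / 35 * (C + C1), ?_⟩
  filter_upwards [hC1, self_mem_nhdsWithin] with x h1 hx
  have hx1 : (1 : ℝ) < x := hx
  have h2 := hC x hx1
  have h3 := (abs_le.1 h1).2
  have h4 : ∑' w, b1 K α x w ≤
      ∑' w : HeightOneSpectrum (𝓞 L), (if ∀ i, ‖α w i‖ = 1 then 0 else (Nm w : ℝ) ^ (-x)) := by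
    refine (summable_b1 hx1).tsum_le_tsum (fun w => ?_) ?_
    · unfold b1 TW
      have := pos_rp w x
      by_cases hw : ∀ i, ‖α w i‖ = 1
      · rw [if_neg (fun h => h.2 hw), if_pos hw]
      · rw [if_neg hw]
        split_ifs
        · exact le_rfl
        · exact this
    · refine (summable_ite (M := L) hx1 fun w => ¬ ∀ i, ‖α w i‖ = 1).congr fun w => ?_
      split_ifs <;> simp_all
  linarith

variable [IsGalois K L] {S : ∀ σ : Gal(L/K), Finset (HeightOneSpectrum (𝓞 (FF σ)))}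

/-- the exceptional places -/
def exc (S : ∀ σ : Gal(L/K), Finset (HeightOneSpectrum (𝓞 (FF σ)))) : Set (HeightOneSpectrum (𝓞 L)) :=
  {w | bel K w ∈ RR K L ∨ ∃ σ : Gal(L/K), bel (FF σ) w ∈ S σ}

theorem exc_finite : (exc S).Finite := by
  have h1 := bel_fin (M := L) (RR_finite (K := K) (E := L))
  have h2 : (⋃ σ : Gal(L/K), {w : HeightOneSpectrum (𝓞 L) | bel (FF σ) w ∈ S σ}).Finite :=
    Set.finite_iUnion fun σ => bel_fin (K := FF σ) (M := L) (S σ).finite_toSet
  refine (h1.union h2).subset fun w hw => ?_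
  rcases hw with hw | ⟨σ, hw⟩
  · exact Or.inl hw
  · exact Or.inr (Set.mem_iUnion.2 ⟨σ, hw⟩)

/-- the pair of a place of degree two -/
theorem exists_pair {w : HeightOneSpectrum (𝓞 L)} (hw : w ∉ exc S) (hd : deg K w = 2) :
    ∃ y : XX S, uu y = w ∧ Nm y.2.1 = Nm (bel K w) := by
  have h1 : bel K w ∉ RR K L := fun h => hw (Or.inl h)
  obtain ⟨σ, h2, h3, h4, h5, h6⟩ := exists_inv h1 hd
  have h7 : bel (FF σ) w ∉ S σ := fun h => hw (Or.inr ⟨σ, h⟩)
  exact ⟨⟨⟨σ, h2, h3⟩, ⟨bel (FF σ) w, h7, h4⟩⟩, h5, h6⟩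

theorem sum_b2 (h : ∀ σ : Gal(L/K), σ ≠ 1 → σ * σ = 1 → CuspidalGL2 (S σ) α) :
    ∃ C : ℝ, ∀ᶠ x in 𝓝[>] (1 : ℝ), ∑' w, b2 K α x w ≤ Nat.card (Inv K L) * (1 / 20 * Lam x) + C := by
  classical
  have hfin : Fintype (Inv K L) := Fintype.ofFinite _
  choose C1 hC1 using fun σ : Inv K L => nontempered (h σ.1 σ.2.1 σ.2.2) (finrank_FF σ.2.1 σ.2.2)
  choose C2 hC2 using fun σ : Inv K L => inert_upper (finrank_FF σ.2.1 σ.2.2) (S σ.1)
  have hex := exc_finite (S := S)
  refine ⟨∑ σ, 1 / 10 * (C1 σ + C2 σ) + hex.toFinset.card, ?_⟩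
  filter_upwards [Filter.eventually_all.2 hC2, self_mem_nhdsWithin] with x h2 hx
  have hx1 : (1 : ℝ) < x := hx
  have hs := summable_b2 (K := K) (α := α) hx1
  -- split off the exceptional places
  have e1 : ∑' w, b2 K α x w = ∑ w ∈ hex.toFinset, b2 K α x w +
      ∑' w : {w : HeightOneSpectrum (𝓞 L) // w ∉ hex.toFinset}, b2 K α x w.1 :=
    (hs.sum_add_tsum_subtype_compl _).symm
  have h3 : ∑ w ∈ hex.toFinset, b2 K α x w ≤ hex.toFinset.card := by
    calc _ ≤ ∑ _w ∈ hex.toFinset, (1 : ℝ) := by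
          refine Finset.sum_le_sum fun w _ => ?_
          unfold b2
          split_ifs
          · exact rp_le_one _ (by linarith)
          · exact zero_le_one
      _ = _ := by simp
  -- the bad pairs
  let f : XX S → ℝ := fun y => if ∀ i, ‖aw α y.2 i‖ = 1 then 0 else (Nm y.2.1 : ℝ) ^ (-x)
  have hf0 : ∀ y, 0 ≤ f y := fun y => by
    show 0 ≤ (if ∀ i, ‖aw α y.2 i‖ = 1 then 0 else (Nm y.2.1 : ℝ) ^ (-x))
    split_ifs
    · exact le_rfl
    · exact pos_rp _ x
  have hf1 : ∀ y, f y ≤ (Nm y.2.1 : ℝ) ^ (-x) := fun y => by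
    show (if ∀ i, ‖aw α y.2 i‖ = 1 then 0 else (Nm y.2.1 : ℝ) ^ (-x)) ≤ _
    split_ifs
    · exact pos_rp _ x
    · exact le_rfl
  have hfs : Summable f := Summable.of_nonneg_of_le hf0 hf1 (summable_XX hx1)
  have h4 : ∑' w : {w : HeightOneSpectrum (𝓞 L) // w ∉ hex.toFinset}, b2 K α x w.1 ≤ ∑' y, f y := by
    let W : Set {w : HeightOneSpectrum (𝓞 L) // w ∉ hex.toFinset} := {w | deg K w.1 = 2 ∧ ¬ TW α w.1}
    have h5 : ∑' w : {w : HeightOneSpectrum (𝓞 L) // w ∉ hex.toFinset}, b2 K α x w.1 =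
        ∑' w : W, (Nm (bel K w.1.1) : ℝ) ^ (-x) := by
      refine Eq.trans ?_ (tsum_subtype W (fun w => (Nm (bel K w.1) : ℝ) ^ (-x))).symm
      refine tsum_congr fun w => ?_
      rw [Set.indicator_apply]
      unfold b2
      rfl
    have hpair : ∀ w : W, ∃ y : XX S, uu y = w.1.1 ∧ Nm y.2.1 = Nm (bel K w.1.1) := fun w =>
      exists_pair (by simpa using w.1.2) w.2.1
    choose j hj1 hj2 using hpair
    have hj : Function.Injective j := by
      intro a b hab
      refine Subtype.ext (Subtype.ext ?_)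
      rw [← hj1 a, ← hj1 b, hab]
    rw [h5]
    have h6 : ∑' w : W, f (j w) ≤ ∑' y, f y := tsum_comp_le_tsum_of_inj hfs hf0 hj
    refine le_trans (le_of_eq ?_) h6
    refine tsum_congr fun w => ?_
    have h7 : ¬ ∀ i, ‖aw α (j w).2 i‖ = 1 := by
      intro hc
      refine w.2.2 fun i => ?_
      rw [← hj1 w]
      exact hc i
    show _ = (if ∀ i, ‖aw α (j w).2 i‖ = 1 then 0 else (Nm (j w).2.1 : ℝ) ^ (-x))
    rw [if_neg h7, hj2 w]
  have e2 : ∑' y, f y = ∑ σ : Inv K L, ∑' u : IP L (S σ.1),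
      (if ∀ i, ‖aw α u i‖ = 1 then 0 else (Nm u.1 : ℝ) ^ (-x)) := by
    rw [hfs.tsum_sigma, tsum_fintype]
  have h5 : ∑ σ : Inv K L, ∑' u : IP L (S σ.1), (if ∀ i, ‖aw α u i‖ = 1 then 0 else (Nm u.1 : ℝ) ^ (-x)) ≤
      ∑ σ : Inv K L, (1 / 20 * Lam x + 1 / 10 * (C1 σ + C2 σ)) := by
    refine Finset.sum_le_sum fun σ _ => ?_
    have h6 := hC1 σ x hx1
    have h7 := h2 σ
    linarith
  rw [Finset.sum_add_distrib, Finset.sum_const, Finset.card_univ, nsmul_eq_mul, ← Nat.card_eq_fintype_card] at h5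
  rw [e1]
  linarith

open scoped Classical in
/-- **Main estimate.** -/
theorem main {m : ℕ} {α : Fin m → HeightOneSpectrum (𝓞 L) → Fin 2 → ℂ}
    {R : Fin m → Finset (HeightOneSpectrum (𝓞 L))} (hR : ∀ j, RankinSelberg (R j) (α j))
    {S : Fin m → ∀ σ : Gal(L/K), Finset (HeightOneSpectrum (𝓞 (FF σ)))}
    (h : ∀ j, ∀ σ : Gal(L/K), σ ≠ 1 → σ * σ = 1 → CuspidalGL2 (S j σ) (α j)) :
    ∃ C : ℝ, ∀ᶠ x in 𝓝[>] (1 : ℝ),
      ((1 + Nat.card (Inv K L) : ℝ) / Module.finrank K L - m * (1 / 35 + Nat.card (Inv K L) / 20)) * Lam x - C ≤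
        ∑' v : HeightOneSpectrum (𝓞 K), (if ∀ j, TV K (α j) v then (Nm v : ℝ) ^ (-x) else 0) := by
  obtain ⟨C1, hC1⟩ := deg_one_lower (K := K) (M := L)
  obtain ⟨C2, hC2⟩ := deg_two_lower (K := K) (L := L)
  choose C3 hC3 using fun j => sum_b1 (K := K) (hR j)
  choose C4 hC4 using fun j => sum_b2 (h j)
  set t : ℝ := ((Nat.card (Inv K L) : ℕ) : ℝ) with ht
  set d : ℝ := ((Module.finrank K L : ℕ) : ℝ) with hd
  have hd0 : 0 < d := finrank_pos'
  refine ⟨1 / d * C1 + 2 / d * C2 + ∑ j, C3 j + ∑ j, C4 j, ?_⟩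
  filter_upwards [hC1, hC2, Filter.eventually_all.2 hC3, Filter.eventually_all.2 hC4, self_mem_nhdsWithin]
    with x h1 h2 h3 h4 hx
  have hx1 : (1 : ℝ) < x := hx
  -- the weighted sum
  have s1 := summable_ite (M := L) hx1 fun w => deg K w = 1
  have s2 := summable_ite_bel (K := K) (M := L) hx1 fun w => deg K w = 2
  have ew : ∀ w : HeightOneSpectrum (𝓞 L), wt K w * (Nm (bel K w) : ℝ) ^ (-x) =
      1 / d * (if deg K w = 1 then (Nm w : ℝ) ^ (-x) else 0) +
        2 / d * (if deg K w = 2 then (Nm (bel K w) : ℝ) ^ (-x) else 0) := by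
    intro w
    unfold wt
    have h5 := one_le_deg (K := K) w
    by_cases i1 : deg K w = 1
    · rw [if_pos i1, if_pos (by omega), if_neg (by omega), Nm_eq_pow (K := K) w, i1, pow_one, mul_zero,
        add_zero, Nat.cast_one, hd]
    · by_cases i2 : deg K w = 2
      · rw [if_neg i1, if_pos i2, if_pos (by omega), i2]
        push_cast
        ring
      · rw [if_neg i1, if_neg i2, if_neg (by omega)]
        simp
  have s3 : Summable fun w : HeightOneSpectrum (𝓞 L) => wt K w * (Nm (bel K w) : ℝ) ^ (-x) := by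
    simp_rw [ew]
    exact (s1.mul_left _).add (s2.mul_left _)
  have e3 : ∑' w : HeightOneSpectrum (𝓞 L), wt K w * (Nm (bel K w) : ℝ) ^ (-x) =
      1 / d * ∑' w : HeightOneSpectrum (𝓞 L), (if deg K w = 1 then (Nm w : ℝ) ^ (-x) else 0) +
        2 / d * ∑' w : HeightOneSpectrum (𝓞 L), (if deg K w = 2 then (Nm (bel K w) : ℝ) ^ (-x) else 0) := by
    simp_rw [ew]
    rw [(s1.mul_left _).tsum_add (s2.mul_left _), tsum_mul_left, tsum_mul_left]
  have h5 : (1 + t) / d * Lam x - (1 / d * C1 + 2 / d * C2) ≤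
      ∑' w : HeightOneSpectrum (𝓞 L), wt K w * (Nm (bel K w) : ℝ) ^ (-x) := by
    rw [e3]
    have h6 := mul_le_mul_of_nonneg_left h1 (by positivity : (0 : ℝ) ≤ 1 / d)
    have h7 := mul_le_mul_of_nonneg_left h2 (by positivity : (0 : ℝ) ≤ 2 / d)
    have e4 : (1 + t) / d * Lam x - (1 / d * C1 + 2 / d * C2) =
        1 / d * (Lam x - C1) + 2 / d * (t * (1 / 2 * Lam x) - C2) := by
      ring
    rw [e4]
    exact add_le_add h6 h7
  -- fibrewise
  have f1 := tsum_fib (K := K) s3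
  have f2 := fun j => tsum_fib (K := K) (summable_b1 (K := K) (α := α j) hx1)
  have f3 := fun j => tsum_fib (K := K) (summable_b2 (K := K) (α := α j) hx1)
  have s4 := summable_ite (M := K) hx1 fun v => ∀ j, TV K (α j) v
  have key : ∀ v : HeightOneSpectrum (𝓞 K),
      ∑ w ∈ (fiber_finite (K := K) (M := L) v).toFinset, wt K w * (Nm (bel K w) : ℝ) ^ (-x) ≤
      (if ∀ j, TV K (α j) v then (Nm v : ℝ) ^ (-x) else 0) +
        (∑ j, ∑ w ∈ (fiber_finite (K := K) (M := L) v).toFinset, b1 K (α j) x w +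
          ∑ j, ∑ w ∈ (fiber_finite (K := K) (M := L) v).toFinset, b2 K (α j) x w) := by
    intro v
    have g1' : ∀ j, 0 ≤ ∑ w ∈ (fiber_finite (K := K) (M := L) v).toFinset, b1 K (α j) x w := fun j =>
      Finset.sum_nonneg fun w _ => b1_nonneg x w
    have g2' : ∀ j, 0 ≤ ∑ w ∈ (fiber_finite (K := K) (M := L) v).toFinset, b2 K (α j) x w := fun j =>
      Finset.sum_nonneg fun w _ => b2_nonneg x w
    have g1 : 0 ≤ ∑ j, ∑ w ∈ (fiber_finite (K := K) (M := L) v).toFinset, b1 K (α j) x w :=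
      Finset.sum_nonneg fun j _ => g1' j
    have g2 : 0 ≤ ∑ j, ∑ w ∈ (fiber_finite (K := K) (M := L) v).toFinset, b2 K (α j) x w :=
      Finset.sum_nonneg fun j _ => g2' j
    have g3 : ∑ w ∈ (fiber_finite (K := K) (M := L) v).toFinset, wt K w * (Nm (bel K w) : ℝ) ^ (-x) ≤
        (Nm v : ℝ) ^ (-x) := by
      have g4 : ∑ w ∈ (fiber_finite (K := K) (M := L) v).toFinset, wt K w * (Nm (bel K w) : ℝ) ^ (-x) =
          (∑ w ∈ (fiber_finite (K := K) (M := L) v).toFinset, wt K w) * (Nm v : ℝ) ^ (-x) := by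
        rw [Finset.sum_mul]
        refine Finset.sum_congr rfl fun w hw => ?_
        have hb : bel K w = v := by simpa using hw
        rw [hb]
      rw [g4]
      exact mul_le_of_le_one_left (pos_rp v x) (sum_wt_le v)
    by_cases hT : ∀ j, TV K (α j) v
    · rw [if_pos hT]
      linarith
    · rw [if_neg hT, zero_add]
      unfold TV at hT
      push Not at hT
      obtain ⟨j, w0, hw0, hw1⟩ := hT
      have hm : w0 ∈ (fiber_finite (K := K) (M := L) v).toFinset := by simpa using hw0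
      by_cases i1 : deg K w0 = 1
      · have g5 : b1 K (α j) x w0 = (Nm v : ℝ) ^ (-x) := by
          unfold b1
          rw [if_pos ⟨i1, hw1⟩, Nm_eq_pow (K := K) w0, i1, pow_one, hw0]
        have g6 := Finset.single_le_sum (f := b1 K (α j) x) (fun w _ => b1_nonneg x w) hm
        have g7 := Finset.single_le_sum (fun j _ => g1' j) (Finset.mem_univ j)
        linarith
      · by_cases i2 : deg K w0 = 2
        · have g5 : b2 K (α j) x w0 = (Nm v : ℝ) ^ (-x) := by
            unfold b2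
            rw [if_pos ⟨i2, hw1⟩, hw0]
          have g6 := Finset.single_le_sum (f := b2 K (α j) x) (fun w _ => b2_nonneg x w) hm
          have g7 := Finset.single_le_sum (fun j _ => g2' j) (Finset.mem_univ j)
          linarith
        · have g7 : ∑ w ∈ (fiber_finite (K := K) (M := L) v).toFinset, wt K w * (Nm (bel K w) : ℝ) ^ (-x) = 0 := by
            refine Finset.sum_eq_zero fun w hw => ?_
            have hb : bel K w = v := by simpa using hw
            have g8 : deg K w = deg K w0 := deg_eq (hb.trans hw0.symm)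
            have g9 := one_le_deg (K := K) w0
            unfold wt
            rw [if_neg (by omega)]
            simp
          rw [g7]
          linarith
  have f2' : HasSum (fun v => ∑ j, ∑ w ∈ (fiber_finite (K := K) (M := L) v).toFinset, b1 K (α j) x w)
      (∑ j, ∑' w, b1 K (α j) x w) := hasSum_sum fun j _ => f2 j
  have f3' : HasSum (fun v => ∑ j, ∑ w ∈ (fiber_finite (K := K) (M := L) v).toFinset, b2 K (α j) x w)
      (∑ j, ∑' w, b2 K (α j) x w) := hasSum_sum fun j _ => f3 j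
  have h6 := f1.summable.tsum_le_tsum key (s4.add (f2'.summable.add f3'.summable))
  rw [s4.tsum_add (f2'.summable.add f3'.summable), f2'.summable.tsum_add f3'.summable, f1.tsum_eq, f2'.tsum_eq,
    f3'.tsum_eq] at h6
  have h7 : ∑ j, ∑' w, b1 K (α j) x w ≤ ∑ j : Fin m, (1 / 35 * Lam x + C3 j) := Finset.sum_le_sum fun j _ => h3 j
  have h8 : ∑ j, ∑' w, b2 K (α j) x w ≤ ∑ j : Fin m, (t * (1 / 20 * Lam x) + C4 j) :=
    Finset.sum_le_sum fun j _ => h4 j
  rw [Finset.sum_add_distrib, Finset.sum_const, Finset.card_univ, Fintype.card_fin, nsmul_eq_mul] at h7 h8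
  have e5 : ((1 + t) / d - m * (1 / 35 + t / 20)) * Lam x - (1 / d * C1 + 2 / d * C2 + ∑ j, C3 j + ∑ j, C4 j) =
      ((1 + t) / d * Lam x - (1 / d * C1 + 2 / d * C2)) - (m * (1 / 35 * Lam x) + ∑ j, C3 j) -
        (m * (t * (1 / 20 * Lam x)) + ∑ j, C4 j) := by
    ring
  rw [e5]
  linarith

end Pool.Agent.R398.AI
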