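import Mathlib
import Pool.Agent.R398.AI.Main

/-! The final statements. -/

set_option autoImplicit false
set_option linter.unusedSectionVars false

namespace Pool.Agent.R398.AI

open NumberField IsDedekindDomain Filter Topology
open Pool.Agent.R398.AS
open H921R2.TatePole (Lam Lam_tendsto)

variable {K L : Type} [Field K] [NumberField K] [Field L] [NumberField L] [Algebra K L]

/-- the local component is tempered at all places above `v` -/
def TemperedAbove (α : HeightOneSpectrum (𝓞 L) → Fin 2 → ℂ) (v : HeightOneSpectrum (𝓞 K)) : Prop :=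
  ∀ w : HeightOneSpectrum (𝓞 L), Above v w → ∀ i, ‖α w i‖ = 1

theorem TV_iff {α : HeightOneSpectrum (𝓞 L) → Fin 2 → ℂ} {v : HeightOneSpectrum (𝓞 K)} :
    TV K α v ↔ TemperedAbove α v := by
  unfold TV TemperedAbove TW
  constructor
  · intro h w hw
    exact h w (bel_of_above hw)
  · intro h w hw
    exact h w (by rw [← hw]; exact above_bel w)

/-- `(1 + t) / d - m (1 / 35 + t / 20)`, `d` the degree of `L / K` and `t` the number of involutions in the
Galois group -/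
noncomputable def density (K L : Type) [Field K] [NumberField K] [Field L] [NumberField L] [Algebra K L]
    (m : ℕ) : ℝ :=
  (1 + Nat.card {σ : Gal(L/K) // σ ≠ 1 ∧ σ * σ = 1}) / Module.finrank K L -
    m * (1 / 35 + Nat.card {σ : Gal(L/K) // σ ≠ 1 ∧ σ * σ = 1} / 20)

/-- What is used of a representation of `GL_n` over `K` which is automorphically induced from the representation of
`GL_2` over `L` with the parameters `α`: outside `S₀` its Satake parameters `γ` are nonzero, and its `L`-factor is the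
product of the `L`-factors at the places `w` above `v`; `log_{N v} (N w)` is the residue degree. -/
structure Induced {n : ℕ} (S₀ : Finset (HeightOneSpectrum (𝓞 K))) (α : HeightOneSpectrum (𝓞 L) → Fin 2 → ℂ)
    (γ : HeightOneSpectrum (𝓞 K) → Fin n → ℂ) : Prop where
  /-- the parameters are nonzero -/
  ne_zero : ∀ v : HeightOneSpectrum (𝓞 K), v ∉ S₀ → ∀ i, γ v i ≠ 0
  /-- the Euler factors -/
  euler : ∀ v : HeightOneSpectrum (𝓞 K), v ∉ S₀ → ∀ X : ℂ, ∏ i, (1 - γ v i * X) =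
    ∏ᶠ w ∈ {w : HeightOneSpectrum (𝓞 L) | Above v w}, ∏ j, (1 - α w j * X ^ Nat.log (Nm v) (Nm w))

theorem induced_tempered {n : ℕ} {S₀ : Finset (HeightOneSpectrum (𝓞 K))}
    {α : HeightOneSpectrum (𝓞 L) → Fin 2 → ℂ} {γ : HeightOneSpectrum (𝓞 K) → Fin n → ℂ} (h : Induced S₀ α γ)
    {v : HeightOneSpectrum (𝓞 K)} (hv : v ∉ S₀) (hT : TemperedAbove α v) : ∀ i, ‖γ v i‖ = 1 := by
  intro i
  have h0 := h.ne_zero v hv i
  have h1 := h.euler v hv (γ v i)⁻¹
  have h2 : ∏ i', (1 - γ v i' * (γ v i)⁻¹) = 0 :=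
    Finset.prod_eq_zero (Finset.mem_univ i) (by rw [mul_inv_cancel₀ h0, sub_self])
  have hfin : {w : HeightOneSpectrum (𝓞 L) | Above v w}.Finite :=
    (fiber_finite (M := L) v).subset fun w hw => bel_of_above hw
  rw [h2, finprod_mem_eq_finite_toFinset_prod _ hfin] at h1
  obtain ⟨w, hw, h3⟩ := Finset.prod_eq_zero_iff.1 h1.symm
  obtain ⟨j, -, h4⟩ := Finset.prod_eq_zero_iff.1 h3
  have hwv : Above v w := by simpa using hw
  have h5 : α w j * (γ v i)⁻¹ ^ Nat.log (Nm v) (Nm w) = 1 := (sub_eq_zero.1 h4).symm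
  have h6 := congrArg norm h5
  rw [norm_mul, norm_pow, norm_inv, hT w hwv j, one_mul, norm_one] at h6
  have h7 : Nat.log (Nm v) (Nm w) ≠ 0 := by
    have hb := bel_of_above hwv
    rw [Nm_eq_pow (K := K) w, hb, Nat.log_pow (by have := two_le_Nm v; omega)]
    have := one_le_deg (K := K) w
    omega
  have h8 : ‖γ v i‖⁻¹ = 1 := (pow_eq_one_iff_of_nonneg (by positivity) h7).1 h6
  rwa [inv_eq_one] at h8

variable [IsGalois K L]

theorem card_inv_of_exponent (h : ∀ σ : Gal(L/K), σ * σ = 1) :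
    (Nat.card {σ : Gal(L/K) // σ ≠ 1 ∧ σ * σ = 1} : ℝ) = Module.finrank K L - 1 := by
  classical
  have hf : Fintype Gal(L/K) := Fintype.ofFinite _
  have h1 : Nat.card {σ : Gal(L/K) // σ ≠ 1 ∧ σ * σ = 1} = Nat.card {σ : Gal(L/K) // σ ≠ 1} :=
    Nat.card_congr (Equiv.subtypeEquivRight fun σ => ⟨fun h => h.1, fun h' => ⟨h', h σ⟩⟩)
  have h2 : Nat.card Gal(L/K) = Module.finrank K L := IsGaloisGroup.card_eq_finrank Gal(L/K) K L
  have h3 : Nat.card {σ : Gal(L/K) // σ ≠ 1} = Nat.card Gal(L/K) - 1 := by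
    rw [Nat.card_eq_fintype_card, Nat.card_eq_fintype_card, Fintype.card_subtype_compl, Fintype.card_subtype_eq]
  have h4 : 1 ≤ Nat.card Gal(L/K) := Nat.card_pos
  rw [h1, h3, Nat.cast_sub h4, h2]
  simp

theorem density_exponent (h : ∀ σ : Gal(L/K), σ * σ = 1) (m : ℕ) :
    density K L m = 1 - m * (1 / 35 + (Module.finrank K L - 1) / 20) := by
  have h1 := card_inv_of_exponent h
  have h2 : (0 : ℝ) < Module.finrank K L := finrank_pos'
  unfold density
  rw [h1, add_sub_cancel, div_self h2.ne']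

theorem density_quadratic (h : Module.finrank K L = 2) (m : ℕ) : density K L m = 1 - 11 * m / 140 := by
  have hf : Fintype Gal(L/K) := Fintype.ofFinite _
  have h1 : ∀ σ : Gal(L/K), σ * σ = 1 := by
    intro σ
    have h2 : Nat.card Gal(L/K) = 2 := (IsGaloisGroup.card_eq_finrank Gal(L/K) K L).trans h
    rw [← sq, ← h2]
    exact pow_card_eq_one'
  rw [density_exponent h1, h]
  push_cast
  ring

variable {m : ℕ} {α : Fin m → HeightOneSpectrum (𝓞 L) → Fin 2 → ℂ}
  {R : Fin m → Finset (HeightOneSpectrum (𝓞 L))}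
  {S : Fin m → ∀ σ : Gal(L/K), Finset (HeightOneSpectrum (𝓞 (FF σ)))}

open scoped Classical in
theorem lower (hR : ∀ j, RankinSelberg (R j) (α j))
    (h : ∀ j, ∀ σ : Gal(L/K), σ ≠ 1 → σ * σ = 1 → CuspidalGL2 (S j σ) (α j)) :
    ∃ C : ℝ, ∀ᶠ x in 𝓝[>] (1 : ℝ),
      density K L m * ∑' v : HeightOneSpectrum (𝓞 K), (Nm v : ℝ) ^ (-x) ≤
        ∑' v : HeightOneSpectrum (𝓞 K), (if ∀ j, TemperedAbove (α j) v then (Nm v : ℝ) ^ (-x) else 0) + C := by
  obtain ⟨C1, hC1⟩ := main hR h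
  obtain ⟨C2, h0, hC2⟩ := all_bdd K
  refine ⟨C1 + |density K L m| * C2, ?_⟩
  filter_upwards [hC1, hC2] with x h1 h2
  have e1 : density K L m = (1 + Nat.card (Inv K L) : ℝ) / Module.finrank K L -
      m * (1 / 35 + Nat.card (Inv K L) / 20) := rfl
  rw [← e1] at h1
  simp only [TV_iff] at h1
  have h3 : density K L m * (∑' v : HeightOneSpectrum (𝓞 K), (Nm v : ℝ) ^ (-x) - Lam x) ≤
      |density K L m| * C2 := by
    refine (le_abs_self _).trans ?_
    rw [abs_mul]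
    exact mul_le_mul_of_nonneg_left h2 (abs_nonneg _)
  rw [mul_sub] at h3
  linarith

open scoped Classical in
theorem lower_eps (hR : ∀ j, RankinSelberg (R j) (α j))
    (h : ∀ j, ∀ σ : Gal(L/K), σ ≠ 1 → σ * σ = 1 → CuspidalGL2 (S j σ) (α j)) (C₀ : ℝ) {ε : ℝ} (hε : 0 < ε) :
    ∀ᶠ x in 𝓝[>] (1 : ℝ),
      (density K L m - ε) * ∑' v : HeightOneSpectrum (𝓞 K), (Nm v : ℝ) ^ (-x) + C₀ ≤
        ∑' v : HeightOneSpectrum (𝓞 K), (if ∀ j, TemperedAbove (α j) v then (Nm v : ℝ) ^ (-x) else 0) := by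
  obtain ⟨C, hC⟩ := lower hR h
  obtain ⟨C2, h0, hC2⟩ := all_bdd K
  have h3 := Lam_tendsto.eventually (eventually_ge_atTop ((C + C₀) / ε + C2))
  filter_upwards [hC, hC2, h3] with x h1 h2 h3
  have h4 := (abs_le.1 h2).1
  have h5 : (C + C₀) / ε ≤ ∑' v : HeightOneSpectrum (𝓞 K), (Nm v : ℝ) ^ (-x) := by linarith
  rw [div_le_iff₀ hε] at h5
  linarith

open scoped Classical in
theorem lower_induced (hR : ∀ j, RankinSelberg (R j) (α j))
    (h : ∀ j, ∀ σ : Gal(L/K), σ ≠ 1 → σ * σ = 1 → CuspidalGL2 (S j σ) (α j)) {n : ℕ}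
    {S₀ : Finset (HeightOneSpectrum (𝓞 K))} {γ : Fin m → HeightOneSpectrum (𝓞 K) → Fin n → ℂ}
    (hI : ∀ j, Induced S₀ (α j) (γ j)) {ε : ℝ} (hε : 0 < ε) :
    ∀ᶠ x in 𝓝[>] (1 : ℝ),
      (density K L m - ε) * ∑' v : HeightOneSpectrum (𝓞 K), (Nm v : ℝ) ^ (-x) ≤
        ∑' v : HeightOneSpectrum (𝓞 K), (if ∀ j i, ‖γ j v i‖ = 1 then (Nm v : ℝ) ^ (-x) else 0) := by
  filter_upwards [lower_eps hR h S₀.card hε, self_mem_nhdsWithin] with x h1 hx
  have hx1 : (1 : ℝ) < x := hx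
  have hf : {v : HeightOneSpectrum (𝓞 K) | v ∈ S₀}.Finite := S₀.finite_toSet
  have h2 := fin_bdd (M := K) hx1 hf
  have e : hf.toFinset = S₀ := by
    ext v
    simp
  rw [e] at h2
  have s1 := summable_ite (M := K) hx1 fun v => ∀ j, TemperedAbove (α j) v
  have s2 := summable_ite (M := K) hx1 fun v => ∀ j i, ‖γ j v i‖ = 1
  have s3 := summable_ite (M := K) hx1 fun v => v ∈ S₀
  have h3 : ∑' v : HeightOneSpectrum (𝓞 K), (if ∀ j, TemperedAbove (α j) v then (Nm v : ℝ) ^ (-x) else 0) ≤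
      ∑' v : HeightOneSpectrum (𝓞 K), ((if ∀ j i, ‖γ j v i‖ = 1 then (Nm v : ℝ) ^ (-x) else 0) +
        (if v ∈ S₀ then (Nm v : ℝ) ^ (-x) else 0)) := by
    refine s1.tsum_le_tsum (fun v => ?_) (s2.add s3)
    have hp := pos_rp v x
    by_cases hv : v ∈ S₀
    · rw [if_pos hv]
      split_ifs <;> linarith
    · rw [if_neg hv, add_zero]
      by_cases hT : ∀ j, TemperedAbove (α j) v
      · rw [if_pos hT, if_pos fun j i => induced_tempered (hI j) hv (hT j) i]
      · rw [if_neg hT]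
        split_ifs
        · exact hp
        · exact le_rfl
  rw [s2.tsum_add s3] at h3
  linarith

end Pool.Agent.R398.AI
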